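import Pool.Agent.KS6_15.GU.Min

/-! The gap probability of the sine process is a limit of determinants of Toeplitz matrices; it is
nonnegative and nonincreasing. -/

open Matrix MeasureTheory Set Filter Topology

namespace Pool.Agent.KS6_15.GU

open Pool.Agent.E8helper28.RM

/-- the index of the cell -/
noncomputable def io (h : ℝ) (m : ℕ) (x : ℝ) : Fin (m + 1) := ⟨min ⌊x / h⌋₊ m, by omega⟩

lemma io_meas (h : ℝ) (m : ℕ) : Measurable (io h m) := by
  have h1 : Measurable fun x : ℝ => min ⌊x / h⌋₊ m :=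
    (Nat.measurable_floor.comp (measurable_id.div_const h)).min measurable_const
  intro s _
  have h2 : (io h m) ⁻¹' s = (fun x : ℝ => min ⌊x / h⌋₊ m) ⁻¹' ((fun i : Fin (m + 1) => (i : ℕ)) '' s) := by
    ext x
    simp only [mem_preimage, mem_image]
    constructor
    · intro hx
      exact ⟨io h m x, hx, rfl⟩
    · rintro ⟨i, hi, he⟩
      have : i = io h m x := Fin.ext he
      rwa [← this]
  rw [h2]
  exact h1 (Set.to_countable _).measurableSet

lemma io_val {h : ℝ} (hh : 0 < h) {m : ℕ} {x : ℝ} (h0 : 0 ≤ x) (h1 : x < (m + 1) * h) :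
    ((io h m x : Fin (m + 1)) : ℕ) = ⌊x / h⌋₊ := by
  have h2 : ⌊x / h⌋₊ < m + 1 := by
    rw [Nat.floor_lt (by positivity), div_lt_iff₀ hh]
    push_cast
    exact h1
  show min ⌊x / h⌋₊ m = ⌊x / h⌋₊
  omega

lemma map_single {h : ℝ} (hh : 0 < h) (m : ℕ) (i : Fin (m + 1)) :
    ((volume.restrict (Ico (0 : ℝ) ((m + 1) * h))).map (io h m)) {i} = ENNReal.ofReal h := by
  rw [Measure.map_apply (io_meas h m) (measurableSet_singleton i),
    Measure.restrict_apply (io_meas h m (measurableSet_singleton i))]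
  have e : (io h m) ⁻¹' {i} ∩ Ico (0 : ℝ) ((m + 1) * h) = Ico ((i : ℝ) * h) (((i : ℝ) + 1) * h) := by
    ext x
    simp only [mem_inter_iff, mem_preimage, mem_singleton_iff, mem_Ico]
    constructor
    · rintro ⟨h1, h2, h3⟩
      have h4 := io_val hh h2 h3
      rw [h1] at h4
      have h5 := Nat.floor_le (show 0 ≤ x / h by positivity)
      have h6 := Nat.lt_floor_add_one (x / h)
      rw [← h4] at h5 h6
      rw [le_div_iff₀ hh] at h5
      rw [div_lt_iff₀ hh] at h6
      exact ⟨h5, h6⟩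
    · rintro ⟨h1, h2⟩
      have hi : (i : ℝ) + 1 ≤ m + 1 := by
        have := i.2
        exact_mod_cast this
      have h0 : 0 ≤ x := le_trans (by positivity) h1
      have h3 : x < (m + 1) * h := lt_of_lt_of_le h2 (by gcongr)
      refine ⟨?_, h0, h3⟩
      apply Fin.ext
      rw [io_val hh h0 h3, Nat.floor_eq_iff (by positivity)]
      exact ⟨by rwa [le_div_iff₀ hh], by rwa [div_lt_iff₀ hh]⟩
  rw [e, Real.volume_Ico]
  congr 1
  ring

lemma sum_int {h : ℝ} (hh : 0 < h) (m n : ℕ) (G : (Fin n → Fin (m + 1)) → ℝ) :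
    ∫ x in Set.univ.pi (fun _ : Fin n => Ico (0 : ℝ) ((m + 1) * h)), G (fun a => io h m (x a)) =
      h ^ n * ∑ f : Fin n → Fin (m + 1), G f := by
  have e0 : (volume : Measure (Fin n → ℝ)).restrict
      (Set.univ.pi (fun _ : Fin n => Ico (0 : ℝ) ((m + 1) * h))) =
      Measure.pi fun _ : Fin n => volume.restrict (Ico (0 : ℝ) ((m + 1) * h)) := by
    rw [← Measure.restrict_pi_pi]
    rfl
  rw [e0]
  haveI : IsFiniteMeasure (volume.restrict (Ico (0 : ℝ) ((m + 1) * h))) :=
    ⟨by rw [Measure.restrict_apply_univ, Real.volume_Ico]; exact ENNReal.ofReal_lt_top⟩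
  have hm := io_meas h m
  haveI : IsFiniteMeasure ((volume.restrict (Ico (0 : ℝ) ((m + 1) * h))).map (io h m)) :=
    Measure.isFiniteMeasure_map _ _
  have e1 := Measure.pi_map_pi (μ := fun _ : Fin n => volume.restrict (Ico (0 : ℝ) ((m + 1) * h)))
    (f := fun _ => io h m) (fun _ => hm.aemeasurable)
  have hmeas : Measurable fun x : Fin n → ℝ => fun a => io h m (x a) :=
    measurable_pi_lambda _ fun a => hm.comp (measurable_pi_apply a)
  have e2 : ∫ x, G (fun a => io h m (x a)) ∂(Measure.pi fun _ : Fin n =>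
      volume.restrict (Ico (0 : ℝ) ((m + 1) * h))) = ∫ f, G f
      ∂(Measure.pi fun _ : Fin n => (volume.restrict (Ico (0 : ℝ) ((m + 1) * h))).map (io h m)) := by
    rw [← e1, integral_map hmeas.aemeasurable (Measurable.of_discrete.aestronglyMeasurable)]
  rw [e2, integral_fintype (Integrable.of_finite), Finset.mul_sum]
  apply Finset.sum_congr rfl
  intro f _
  rw [smul_eq_mul, Measure.real, Measure.pi_singleton]
  congr 1
  simp_rw [map_single hh m]
  rw [Finset.prod_const, Finset.card_univ, Fintype.card_fin, ENNReal.toReal_pow,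
    ENNReal.toReal_ofReal hh.le]

/-- the discretised term -/
noncomputable def Tn (h : ℝ) (m n : ℕ) : ℝ :=
  h ^ n * ∑ f : Fin n → Fin (m + 1), ((TM h (m + 1)).submatrix f f).det

lemma sub_TM (h : ℝ) (m n : ℕ) (f : Fin n → Fin (m + 1)) : (TM h (m + 1)).submatrix f f =
    Matrix.of fun i j => kK (h * (f i : ℝ)) (h * (f j : ℝ)) := rfl

lemma Tn_bound {h : ℝ} (hh : 0 < h) (m n : ℕ) : 0 ≤ Tn h m n ∧ Tn h m n ≤ ((m + 1) * h) ^ n := by
  unfold Tn
  constructor
  · apply mul_nonneg (by positivity)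
    apply Finset.sum_nonneg
    intro f _
    rw [sub_TM]
    exact det_nonneg good_kK n _
  · have h1 : ∑ f : Fin n → Fin (m + 1), ((TM h (m + 1)).submatrix f f).det ≤ ((m : ℝ) + 1) ^ n := by
      calc ∑ f : Fin n → Fin (m + 1), ((TM h (m + 1)).submatrix f f).det ≤
          ∑ f : Fin n → Fin (m + 1), (1 : ℝ) := by
            apply Finset.sum_le_sum
            intro f _
            rw [sub_TM]
            exact det_le_one n _
        _ = ((m : ℝ) + 1) ^ n := by simp
    calc h ^ n * ∑ f : Fin n → Fin (m + 1), ((TM h (m + 1)).submatrix f f).det ≤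
        h ^ n * ((m : ℝ) + 1) ^ n := by gcongr
      _ = _ := by rw [mul_comm, mul_pow]

lemma DD_eq (h : ℝ) (m : ℕ) : DD h (m + 1) = ∑' n : ℕ, (-1 : ℝ) ^ n / (n.factorial : ℝ) * Tn h m n := by
  unfold DD
  rw [det_expand]
  congr 1
  ext n
  unfold Tn
  rw [neg_pow]
  ring

lemma Tn_lim {s : ℝ} (hs : 0 ≤ s) (n : ℕ) :
    Tendsto (fun k : ℕ => Tn (1 / ((k : ℝ) + 1)) ⌊s * ((k : ℝ) + 1)⌋₊ n) atTop
      (𝓝 (J kK s n)) := by
  classical
  have hJ : J kK s n = ∫ x, (Set.univ.pi (fun _ : Fin n => Icc (0 : ℝ) s)).indicator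
      (fun x : Fin n → ℝ => (Matrix.of fun i j => kK (x i) (x j)).det) x := by
    rw [integral_indicator (MeasurableSet.univ_pi fun _ => measurableSet_Icc)]
    rfl
  have hT : ∀ k : ℕ, Tn (1 / ((k : ℝ) + 1)) ⌊s * ((k : ℝ) + 1)⌋₊ n =
      ∫ x, (Set.univ.pi (fun _ : Fin n => Ico (0 : ℝ)
        (((⌊s * ((k : ℝ) + 1)⌋₊ : ℝ) + 1) * (1 / ((k : ℝ) + 1))))).indicator
      (fun x : Fin n → ℝ => ((TM (1 / ((k : ℝ) + 1)) (⌊s * ((k : ℝ) + 1)⌋₊ + 1)).submatrix
        (fun a => io (1 / ((k : ℝ) + 1)) ⌊s * ((k : ℝ) + 1)⌋₊ (x a))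
        (fun a => io (1 / ((k : ℝ) + 1)) ⌊s * ((k : ℝ) + 1)⌋₊ (x a))).det) x := by
    intro k
    rw [integral_indicator (MeasurableSet.univ_pi fun _ => measurableSet_Ico)]
    unfold Tn
    exact (sum_int (by positivity) _ n (fun f => ((TM (1 / ((k : ℝ) + 1))
      (⌊s * ((k : ℝ) + 1)⌋₊ + 1)).submatrix f f).det)).symm
  rw [hJ]
  simp_rw [hT]
  -- bounds for the length of the boxes
  have hM1 : ∀ k : ℕ, s < ((⌊s * ((k : ℝ) + 1)⌋₊ : ℝ) + 1) * (1 / ((k : ℝ) + 1)) := by
    intro k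
    have h1 := Nat.lt_floor_add_one (s * ((k : ℝ) + 1))
    rw [mul_one_div, lt_div_iff₀ (by positivity)]
    exact h1
  have hM2 : ∀ k : ℕ, ((⌊s * ((k : ℝ) + 1)⌋₊ : ℝ) + 1) * (1 / ((k : ℝ) + 1)) ≤
      s + 1 / ((k : ℝ) + 1) := by
    intro k
    have h1 := Nat.floor_le (show 0 ≤ s * ((k : ℝ) + 1) by positivity)
    rw [mul_one_div, div_le_iff₀ (by positivity)]
    have h2 : (s + 1 / ((k : ℝ) + 1)) * ((k : ℝ) + 1) = s * ((k : ℝ) + 1) + 1 := by
      field_simp
    rw [h2]
    linarith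
  have hlim0 : Tendsto (fun k : ℕ => 1 / ((k : ℝ) + 1)) atTop (𝓝 0) :=
    tendsto_one_div_add_atTop_nhds_zero_nat
  refine tendsto_integral_of_dominated_convergence
    (fun x => (Set.univ.pi (fun _ : Fin n => Icc (0 : ℝ) (s + 1))).indicator (fun _ => (1 : ℝ)) x)
    ?_ ?_ ?_ ?_
  · intro k
    apply AEStronglyMeasurable.indicator _ (MeasurableSet.univ_pi fun _ => measurableSet_Ico)
    have hm := io_meas (1 / ((k : ℝ) + 1)) ⌊s * ((k : ℝ) + 1)⌋₊
    have hmeas : Measurable fun x : Fin n → ℝ =>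
        fun a => io (1 / ((k : ℝ) + 1)) ⌊s * ((k : ℝ) + 1)⌋₊ (x a) :=
      measurable_pi_lambda _ fun a => hm.comp (measurable_pi_apply a)
    have hG : Measurable fun f : Fin n → Fin (⌊s * ((k : ℝ) + 1)⌋₊ + 1) =>
        ((TM (1 / ((k : ℝ) + 1)) (⌊s * ((k : ℝ) + 1)⌋₊ + 1)).submatrix f f).det :=
      Measurable.of_discrete
    exact (hG.comp hmeas).aestronglyMeasurable
  · rw [integrable_indicator_iff (MeasurableSet.univ_pi fun _ => measurableSet_Icc)]
    apply (continuous_const.continuousOn).integrableOn_compact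
    exact isCompact_univ_pi fun _ => isCompact_Icc
  · intro k
    refine Eventually.of_forall fun x => ?_
    by_cases hx : x ∈ Set.univ.pi (fun _ : Fin n => Ico (0 : ℝ)
        (((⌊s * ((k : ℝ) + 1)⌋₊ : ℝ) + 1) * (1 / ((k : ℝ) + 1))))
    · have hx2 : x ∈ Set.univ.pi (fun _ : Fin n => Icc (0 : ℝ) (s + 1)) := by
        rw [mem_univ_pi] at hx ⊢
        intro a
        refine ⟨(hx a).1, (hx a).2.le.trans ((hM2 k).trans ?_)⟩
        have : 1 / ((k : ℝ) + 1) ≤ 1 := by
          rw [div_le_one (by positivity)]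
          have : (0 : ℝ) ≤ k := Nat.cast_nonneg k
          linarith
        linarith
      rw [indicator_of_mem hx, indicator_of_mem hx2, Real.norm_eq_abs, sub_TM, abs_of_nonneg
        (det_nonneg good_kK n _)]
      exact det_le_one n _
    · rw [indicator_of_notMem hx, norm_zero]
      exact indicator_nonneg (fun _ _ => zero_le_one) _
  · refine Eventually.of_forall fun x => ?_
    by_cases hx : x ∈ Set.univ.pi (fun _ : Fin n => Icc (0 : ℝ) s)
    · rw [indicator_of_mem hx]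
      rw [mem_univ_pi] at hx
      have hin : ∀ k : ℕ, x ∈ Set.univ.pi (fun _ : Fin n => Ico (0 : ℝ)
        (((⌊s * ((k : ℝ) + 1)⌋₊ : ℝ) + 1) * (1 / ((k : ℝ) + 1)))) := by
        intro k
        rw [mem_univ_pi]
        exact fun a => ⟨(hx a).1, (hx a).2.trans_lt (hM1 k)⟩
      have e1 : ∀ k : ℕ, (Set.univ.pi (fun _ : Fin n => Ico (0 : ℝ)
          (((⌊s * ((k : ℝ) + 1)⌋₊ : ℝ) + 1) * (1 / ((k : ℝ) + 1))))).indicator
          (fun x : Fin n → ℝ => ((TM (1 / ((k : ℝ) + 1)) (⌊s * ((k : ℝ) + 1)⌋₊ + 1)).submatrix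
          (fun a => io (1 / ((k : ℝ) + 1)) ⌊s * ((k : ℝ) + 1)⌋₊ (x a))
          (fun a => io (1 / ((k : ℝ) + 1)) ⌊s * ((k : ℝ) + 1)⌋₊ (x a))).det) x =
        (Matrix.of fun i j => kK (1 / ((k : ℝ) + 1) *
            ((⌊x i / (1 / ((k : ℝ) + 1))⌋₊ : ℕ) : ℝ))
          (1 / ((k : ℝ) + 1) * ((⌊x j / (1 / ((k : ℝ) + 1))⌋₊ : ℕ) : ℝ))).det := by
        intro k
        rw [indicator_of_mem (hin k), sub_TM]
        have hv : ∀ a, ((io (1 / ((k : ℝ) + 1)) ⌊s * ((k : ℝ) + 1)⌋₊ (x a) :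
            Fin (⌊s * ((k : ℝ) + 1)⌋₊ + 1)) : ℕ) = ⌊x a / (1 / ((k : ℝ) + 1))⌋₊ := by
          intro a
          exact io_val (by positivity) (hx a).1 ((hx a).2.trans_lt (hM1 k))
        simp_rw [hv]
      simp_rw [e1]
      have hc := cont_det good_kK n
      have hg : Tendsto (fun k : ℕ => fun i : Fin n => 1 / ((k : ℝ) + 1) *
          ((⌊x i / (1 / ((k : ℝ) + 1))⌋₊ : ℕ) : ℝ)) atTop (𝓝 x) := by
        rw [tendsto_pi_nhds]
        intro i
        have hlo : Tendsto (fun k : ℕ => x i - 1 / ((k : ℝ) + 1)) atTop (𝓝 (x i)) := by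
          simpa using tendsto_const_nhds.sub hlim0
        refine tendsto_of_tendsto_of_tendsto_of_le_of_le hlo tendsto_const_nhds ?_ ?_
        · intro k
          have hk : 0 < 1 / ((k : ℝ) + 1) := by positivity
          have h1 := Nat.lt_floor_add_one (x i / (1 / ((k : ℝ) + 1)))
          rw [div_lt_iff₀ hk] at h1
          simp only
          nlinarith
        · intro k
          have hk : 0 < 1 / ((k : ℝ) + 1) := by positivity
          have h1 := Nat.floor_le (show 0 ≤ x i / (1 / ((k : ℝ) + 1)) by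
            have := (hx i).1
            positivity)
          rw [le_div_iff₀ hk] at h1
          simp only
          linarith
      exact (hc.tendsto x).comp hg
    · rw [indicator_of_notMem hx]
      apply tendsto_const_nhds.congr'
      rw [mem_univ_pi, not_forall] at hx
      obtain ⟨a, ha⟩ := hx
      rw [mem_Icc, not_and_or, not_le, not_le] at ha
      rcases ha with ha | ha
      · refine Eventually.of_forall fun k => ?_
        simp only
        rw [indicator_of_notMem]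
        intro hc
        rw [mem_univ_pi] at hc
        exact absurd (hc a).1 (not_le.2 ha)
      · have hev : ∀ᶠ k : ℕ in atTop, 1 / ((k : ℝ) + 1) < x a - s :=
          hlim0.eventually (gt_mem_nhds (by linarith))
        filter_upwards [hev] with k hk
        rw [indicator_of_notMem]
        intro hc
        rw [mem_univ_pi] at hc
        have := (hc a).2
        have := hM2 k
        linarith

/-- **the gap probability is a limit of Toeplitz determinants** -/
theorem DD_lim {s : ℝ} (hs : 0 ≤ s) :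
    Tendsto (fun k : ℕ => DD (1 / ((k : ℝ) + 1)) (⌊s * ((k : ℝ) + 1)⌋₊ + 1)) atTop (𝓝 (EG s)) := by
  simp_rw [DD_eq]
  unfold EG fred
  refine tendsto_tsum_of_dominated_convergence (bound := fun n : ℕ => (s + 1) ^ n / (n.factorial : ℝ))
    (Real.summable_pow_div_factorial _) (fun n => (Tn_lim hs n).const_mul _) ?_
  refine Eventually.of_forall fun k n => ?_
  obtain ⟨h1, h2⟩ := Tn_bound (h := 1 / ((k : ℝ) + 1)) (by positivity) ⌊s * ((k : ℝ) + 1)⌋₊ n
  rw [norm_mul, norm_div, norm_pow, norm_neg, norm_one, one_pow, Real.norm_of_nonneg h1,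
    Real.norm_of_nonneg (by positivity : (0 : ℝ) ≤ (n.factorial : ℝ)), one_div, inv_mul_eq_div]
  apply div_le_div_of_nonneg_right _ (by positivity)
  refine h2.trans (pow_le_pow_left₀ (by positivity) ?_ n)
  have h3 := Nat.floor_le (show 0 ≤ s * ((k : ℝ) + 1) by positivity)
  rw [mul_one_div, div_le_iff₀ (by positivity)]
  have hk : (0 : ℝ) ≤ k := Nat.cast_nonneg k
  nlinarith

lemma h_le_one (k : ℕ) : 1 / ((k : ℝ) + 1) ≤ 1 := by
  rw [div_le_one (by positivity)]
  have : (0 : ℝ) ≤ k := Nat.cast_nonneg k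
  linarith

theorem EG_nonneg {s : ℝ} (hs : 0 ≤ s) : 0 ≤ EG s :=
  ge_of_tendsto' (DD_lim hs) fun k => DD_nonneg (h_le_one k) _

theorem EG_anti {s t : ℝ} (hs : 0 ≤ s) (hst : s ≤ t) : EG t ≤ EG s := by
  refine le_of_tendsto_of_tendsto' (DD_lim (hs.trans hst)) (DD_lim hs) fun k => ?_
  apply DD_anti (by positivity) (h_le_one k)
  have : ⌊s * ((k : ℝ) + 1)⌋₊ ≤ ⌊t * ((k : ℝ) + 1)⌋₊ := by
    apply Nat.floor_le_floor
    gcongr
  omega

end Pool.Agent.KS6_15.GU
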