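import Pool.Agent.KS6_15.GU.Nd
import Pool.Agent.KS6_15.GU.Conv

/-! Comparison of convex nonincreasing functions with the gap probability of the sine process. -/

open Set MeasureTheory

namespace Pool.Agent.KS6_15.GU

open Pool.Agent.E8helper28.RM

lemma chord' {g : ℝ → ℝ} (hg : Continuous g) (hmono : ∀ x y, 0 ≤ x → x ≤ y → g x ≤ g y)
    {p q s : ℝ} (h0 : 0 ≤ p) (hp : p ≤ s) (hq : s ≤ q) (hpq : p < q) : (∫ x in (0 : ℝ)..s, g x) ≤
      ((q - s) * (∫ x in (0 : ℝ)..p, g x) + (s - p) * ∫ x in (0 : ℝ)..q, g x) / (q - p) := by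
  have hi : ∀ a b, IntervalIntegrable g volume a b := fun a b => hg.intervalIntegrable a b
  have h1 : ∫ x in p..s, g x ≤ (s - p) * g s := by
    have := intervalIntegral.integral_mono_on hp (hi _ _)
      (continuous_const.intervalIntegrable _ _) (fun x hx => hmono x s (h0.trans hx.1) hx.2)
    rwa [intervalIntegral.integral_const, smul_eq_mul] at this
  have h2 : (q - s) * g s ≤ ∫ x in s..q, g x := by
    have := intervalIntegral.integral_mono_on hq (continuous_const.intervalIntegrable _ _)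
      (hi _ _) (fun x hx => hmono s x (h0.trans hp) hx.1)
    rwa [intervalIntegral.integral_const, smul_eq_mul] at this
  have e1 : ∫ x in (0 : ℝ)..s, g x = (∫ x in (0 : ℝ)..p, g x) + ∫ x in p..s, g x :=
    (intervalIntegral.integral_add_adjacent_intervals (hi _ _) (hi _ _)).symm
  have e2 : ∫ x in (0 : ℝ)..q, g x = (∫ x in (0 : ℝ)..s, g x) + ∫ x in s..q, g x :=
    (intervalIntegral.integral_add_adjacent_intervals (hi _ _) (hi _ _)).symm
  rw [le_div_iff₀ (by linarith), e2, e1]
  have h3 : (q - s) * ∫ x in p..s, g x ≤ (q - s) * ((s - p) * g s) :=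
    mul_le_mul_of_nonneg_left h1 (by linarith)
  have h4 : (s - p) * ((q - s) * g s) ≤ (s - p) * ∫ x in s..q, g x :=
    mul_le_mul_of_nonneg_left h2 (by linarith)
  nlinarith

lemma EG_int {a b s qa qb ja jb : ℝ} (ha : 0 ≤ a) (hab : a < b) (hb : b ≤ 4) (h1 : a ≤ s)
    (h2 : s ≤ b) (Qa : QQ a ≤ qa) (Qb : QQ b ≤ qb) (Ja : J kK a 3 ≤ ja) (Jb : J kK b 3 ≤ jb) :
    1 - s + s ^ 2 / 2 - ((b - s) * qa + (s - a) * qb) / (2 * (b - a)) -
      ((b - s) * ja + (s - a) * jb) / (6 * (b - a)) ≤ EG s := by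
  have hs : 0 ≤ s := ha.trans h1
  have h3 := bonf3 hs (h2.trans hb)
  rw [J2 hs] at h3
  have hba : 0 < b - a := by linarith
  have c1 := chord' Ph_cont (fun x y _ h => Ph_mono h) ha h1 h2 hab
  have c2 := chord' Ps_cont (fun x y h h' => Ps_mono h h') ha h1 h2 hab
  have q1 : QQ s ≤ ((b - s) * qa + (s - a) * qb) / (b - a) := by
    have e : ((b - s) * QQ a + (s - a) * QQ b) / (b - a) ≤
        ((b - s) * qa + (s - a) * qb) / (b - a) := by
      apply div_le_div_of_nonneg_right _ hba.le
      have e1 : (b - s) * QQ a ≤ (b - s) * qa := mul_le_mul_of_nonneg_left Qa (by linarith)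
      have e2 : (s - a) * QQ b ≤ (s - a) * qb := mul_le_mul_of_nonneg_left Qb (by linarith)
      linarith
    refine le_trans ?_ e
    rw [QQ_eq hs, QQ_eq ha, QQ_eq (by linarith : 0 ≤ b)]
    have : ((b - s) * (2 * ∫ x in (0 : ℝ)..a, Ph x) + (s - a) * (2 * ∫ x in (0 : ℝ)..b, Ph x)) /
        (b - a) = 2 * (((b - s) * (∫ x in (0 : ℝ)..a, Ph x) + (s - a) * ∫ x in (0 : ℝ)..b, Ph x) /
        (b - a)) := by ring
    rw [this]
    linarith
  have j1 : J kK s 3 ≤ ((b - s) * ja + (s - a) * jb) / (b - a) := by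
    have e : ((b - s) * J kK a 3 + (s - a) * J kK b 3) / (b - a) ≤
        ((b - s) * ja + (s - a) * jb) / (b - a) := by
      apply div_le_div_of_nonneg_right _ hba.le
      have e1 : (b - s) * J kK a 3 ≤ (b - s) * ja := mul_le_mul_of_nonneg_left Ja (by linarith)
      have e2 : (s - a) * J kK b 3 ≤ (s - a) * jb := mul_le_mul_of_nonneg_left Jb (by linarith)
      linarith
    refine le_trans ?_ e
    rw [J3_eq hs, J3_eq ha, J3_eq (by linarith : 0 ≤ b)]
    have : ((b - s) * (6 * ∫ x in (0 : ℝ)..a, Ps x) + (s - a) * (6 * ∫ x in (0 : ℝ)..b, Ps x)) /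
        (b - a) = 6 * (((b - s) * (∫ x in (0 : ℝ)..a, Ps x) + (s - a) * ∫ x in (0 : ℝ)..b, Ps x) /
        (b - a)) := by ring
    rw [this]
    linarith
  have e1 : ((b - s) * qa + (s - a) * qb) / (2 * (b - a)) =
      ((b - s) * qa + (s - a) * qb) / (b - a) / 2 := by
    rw [div_div, mul_comm 2]
  have e2 : ((b - s) * ja + (s - a) * jb) / (6 * (b - a)) =
      ((b - s) * ja + (s - a) * jb) / (b - a) / 6 := by
    rw [div_div, mul_comm 6]
  rw [e1, e2]
  linarith

lemma Ph_le {x : ℝ} (hx : 0 ≤ x) : Ph x ≤ x := by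
  unfold Ph
  have h : Continuous fun u => K u ^ 2 := by fun_prop
  have h1 := intervalIntegral.integral_mono_on hx (h.intervalIntegrable _ _)
    (continuous_const.intervalIntegrable (μ := volume) _ _) (fun u _ => by
      have := abs_K_le u
      have h2 : K u ^ 2 ≤ 1 := by
        rw [← sq_abs]
        exact pow_le_one₀ (abs_nonneg _) this
      exact h2)
  rw [intervalIntegral.integral_const] at h1
  simpa using h1

/-- `s² / 2 - QQ s / 2` is nondecreasing -/
lemma c2_mono {s b : ℝ} (hs : 0 ≤ s) (hb : s ≤ b) : s ^ 2 / 2 - QQ s / 2 ≤ b ^ 2 / 2 - QQ b / 2 := by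
  rw [QQ_eq hs, QQ_eq (hs.trans hb)]
  have hi : ∀ a b, IntervalIntegrable Ph volume a b := fun a b => Ph_cont.intervalIntegrable a b
  have e : ∫ x in (0 : ℝ)..b, Ph x = (∫ x in (0 : ℝ)..s, Ph x) + ∫ x in s..b, Ph x :=
    (intervalIntegral.integral_add_adjacent_intervals (hi _ _) (hi _ _)).symm
  have h1 : ∫ x in s..b, Ph x ≤ ∫ x in s..b, x :=
    intervalIntegral.integral_mono_on hb (hi _ _) (continuous_id.intervalIntegrable _ _)
      (fun x hx => Ph_le (hs.trans hx.1))
  rw [integral_id] at h1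
  linarith

/-- upper bound for `EG` from a later node -/
lemma EG_up {s b q : ℝ} (hs : 0 ≤ s) (hb : s ≤ b) (hb3 : b ≤ 3) (hq : q ≤ QQ b) :
    EG s ≤ 1 - s + (b ^ 2 / 2 - q / 2) := by
  have h1 := bonf2 hs (hb.trans hb3)
  rw [J2 hs] at h1
  have h2 := c2_mono hs hb
  linarith

/-- upper bound for `EG` from an earlier node -/
lemma EG_up' {s a q : ℝ} (ha : 0 ≤ a) (hs : a ≤ s) (ha3 : a ≤ 3) (hq : q ≤ QQ a) :
    EG s ≤ 1 - a + (a ^ 2 / 2 - q / 2) :=
  (EG_anti ha hs).trans (EG_up ha le_rfl ha3 hq)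

/-- **comparison**: a convex nonincreasing function with these values is close to `EG` -/
theorem close {S : ℝ → ℝ} {e : ℝ} (he0 : 0 ≤ e) (he : e ≤ 1 / 10000)
    (hconv : ∀ a s b, 0 ≤ a → a ≤ s → s ≤ b → a < b →
      S s ≤ ((b - s) * S a + (s - a) * S b) / (b - a))
    (hanti : ∀ s t, s ≤ t → S t ≤ S s) (hlip : ∀ s, 0 ≤ s → S 0 - s ≤ S s)
    (hnn : ∀ s, 0 ≤ S s)
    (u0 : S 0 ≤ 1 + e) (l0 : 1 - e ≤ S 0) (u12 : S (1 / 2) ≤ 7 / 12 + e)
    (u1 : S 1 ≤ 0.2045 + e) (u43 : S (4 / 3) ≤ 0.1378 + e) (u125 : S (12 / 5) ≤ 0.0574 + e)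
    (l85 : 0.16631 - e ≤ S 0.85) (l90 : 0.14071 - e ≤ S 0.9) (l95 : 0.11937 - e ≤ S 0.95)
    (l100 : 0.10023 - e ≤ S 1) (l110 : 0.06793 - e ≤ S 1.1) (l120 : 0.04174 - e ≤ S 1.2)
    {s : ℝ} (hs : 0 ≤ s) : |S s - EG s| ≤ 1 / 10 := by
  rw [abs_le]
  constructor
  · -- `EG s - S s ≤ 1/10`
    have right : ∀ w v, 0 < w → w ≤ s → v - e ≤ S w →
        w * S s ≥ w - (1 - v) * s - e * (2 * s - w) := by
      intro w v hw hws hv
      rcases eq_or_lt_of_le hws with h | h
      · rw [← h]
        nlinarith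
      · have h1 := hconv 0 w s le_rfl hw.le hws (by linarith)
        rw [sub_zero, sub_zero, le_div_iff₀ (by linarith)] at h1
        have h2 : (s - w) * S 0 ≤ (s - w) * (1 + e) := mul_le_mul_of_nonneg_left u0 (by linarith)
        have h3 : (v - e) * s ≤ S w * s := mul_le_mul_of_nonneg_right hv (by linarith)
        nlinarith
    have left := hlip s hs
    rcases le_or_gt s 0.8337 with c1 | c1
    · have := EG_up hs c1 (by norm_num) r1
      norm_num at this ⊢
      linarith
    rcases le_or_gt s 0.85 with c2 | c2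
    · have h1 := EG_up' (by norm_num) c1.le (by norm_num) r1
      have h2 := hanti _ _ c2
      norm_num at h1 ⊢
      norm_num at l85 h2
      linarith
    rcases le_or_gt s 0.8762 with c3 | c3
    · have h1 := EG_up hs c3 (by norm_num) r2
      have h2 := right 0.85 0.16631 (by norm_num) c2.le l85
      norm_num at h1 h2 c2 c3 ⊢
      nlinarith
    rcases le_or_gt s 0.9 with c4 | c4
    · have h1 := EG_up' (by norm_num) c3.le (by norm_num) r2
      have h2 := hanti _ _ c4
      norm_num at h1 ⊢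
      norm_num at l90 h2
      linarith
    rcases le_or_gt s 0.9224 with c5 | c5
    · have h1 := EG_up hs c5 (by norm_num) r3
      have h2 := right 0.9 0.14071 (by norm_num) c4.le l90
      norm_num at h1 h2 c4 c5 ⊢
      nlinarith
    rcases le_or_gt s 0.95 with c6 | c6
    · have h1 := EG_up' (by norm_num) c5.le (by norm_num) r3
      have h2 := hanti _ _ c6
      norm_num at h1 ⊢
      norm_num at l95 h2
      linarith
    rcases le_or_gt s 0.9707 with c7 | c7
    · have h1 := EG_up hs c7 (by norm_num) r4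
      have h2 := right 0.95 0.11937 (by norm_num) c6.le l95
      norm_num at h1 h2 c6 c7 ⊢
      nlinarith
    rcases le_or_gt s 1 with c8 | c8
    · have h1 := EG_up' (by norm_num) c7.le (by norm_num) r4
      have h2 := hanti _ _ c8
      norm_num at h1 ⊢
      norm_num at l100 h2
      linarith
    rcases le_or_gt s 1.0359 with c9 | c9
    · have h1 := EG_up hs c9 (by norm_num) r5
      have h2 := right 1 0.10023 (by norm_num) c8.le l100
      norm_num at h1 h2 c8 c9 ⊢
      nlinarith
    rcases le_or_gt s 1.1 with c10 | c10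
    · have h1 := EG_up' (by norm_num) c9.le (by norm_num) r5
      have h2 := hanti _ _ c10
      norm_num at h1 ⊢
      norm_num at l110 h2
      linarith
    rcases le_or_gt s 1.131 with c11 | c11
    · have h1 := EG_up hs c11 (by norm_num) r6
      have h2 := right 1.1 0.06793 (by norm_num) c10.le l110
      norm_num at h1 h2 c10 c11 ⊢
      nlinarith
    rcases le_or_gt s 1.2 with c12 | c12
    · have h1 := EG_up' (by norm_num) c11.le (by norm_num) r6
      have h2 := hanti _ _ c12
      norm_num at h1 ⊢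
      norm_num at l120 h2
      linarith
    rcases le_or_gt s 1.21 with c13 | c13
    · have h1 := EG_up hs c13 (by norm_num) r7
      have h2 := right 1.2 0.04174 (by norm_num) c12.le l120
      norm_num at h1 h2 c12 c13 ⊢
      nlinarith
    · have h1 := EG_up' (by norm_num) c13.le (by norm_num) r7
      have h2 := hnn s
      norm_num at h1 ⊢
      linarith
  · -- `S s - EG s ≤ 1/10`
    rcases le_or_gt s (1 / 2) with c1 | c1
    · have h1 := hconv 0 s (1 / 2) le_rfl hs c1 (by norm_num)
      have h2 := EG_ge_lin hs (by linarith)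
      norm_num at h1
      nlinarith
    rcases le_or_gt s 1 with c2 | c2
    · have h1 := hconv (1 / 2) s 1 (by norm_num) c1.le c2 (by norm_num)
      have h1' : S s ≤ 2 * ((1 - s) * (7 / 12 + e) + (s - 1 / 2) * (0.2045 + e)) := by
        have a1 : (1 - s) * S (1 / 2) ≤ (1 - s) * (7 / 12 + e) :=
          mul_le_mul_of_nonneg_left u12 (by linarith)
        have a2 : (s - 1 / 2) * S 1 ≤ (s - 1 / 2) * (0.2045 + e) :=
          mul_le_mul_of_nonneg_left u1 (by linarith)
        have a3 : ((1 - s) * S (1 / 2) + (s - 1 / 2) * S 1) / (1 - 1 / 2) =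
            2 * ((1 - s) * S (1 / 2) + (s - 1 / 2) * S 1) := by ring
        rw [a3] at h1
        linarith
      rcases le_or_gt s (3 / 4) with d1 | d1
      · have h2 := EG_int (by norm_num) (by norm_num) (by norm_num) c1.le d1 q_12 q_34 j_12 j_34
        norm_num at h1' h2
        nlinarith [sq_nonneg (s - 0.665)]
      · have h2 := EG_int (by norm_num) (by norm_num) (by norm_num) d1.le c2 q_34 q_1 j_34 j_1
        norm_num at h1' h2
        nlinarith [sq_nonneg (s - 0.85)]
    rcases le_or_gt s (4 / 3) with c3 | c3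
    · have h1 := hconv 1 s (4 / 3) (by norm_num) c2.le c3 (by norm_num)
      have h1' : S s ≤ 3 * ((4 / 3 - s) * (0.2045 + e) + (s - 1) * (0.1378 + e)) := by
        have a1 : (4 / 3 - s) * S 1 ≤ (4 / 3 - s) * (0.2045 + e) :=
          mul_le_mul_of_nonneg_left u1 (by linarith)
        have a2 : (s - 1) * S (4 / 3) ≤ (s - 1) * (0.1378 + e) :=
          mul_le_mul_of_nonneg_left u43 (by linarith)
        have a3 : ((4 / 3 - s) * S 1 + (s - 1) * S (4 / 3)) / (4 / 3 - 1) =
            3 * ((4 / 3 - s) * S 1 + (s - 1) * S (4 / 3)) := by ring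
        rw [a3] at h1
        linarith
      have h2 := EG_int (by norm_num) (by norm_num) (by norm_num) c2.le c3 q_1 q_43 j_1 j_43
      norm_num at h1' h2
      nlinarith [sq_nonneg (s - 1.2967)]
    rcases le_or_gt s (12 / 5) with c4 | c4
    · have h1 := hconv (4 / 3) s (12 / 5) (by norm_num) c3.le c4 (by norm_num)
      have h1' : S s ≤ 15 / 16 * ((12 / 5 - s) * (0.1378 + e) + (s - 4 / 3) * (0.0574 + e)) := by
        have a1 : (12 / 5 - s) * S (4 / 3) ≤ (12 / 5 - s) * (0.1378 + e) :=
          mul_le_mul_of_nonneg_left u43 (by linarith)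
        have a2 : (s - 4 / 3) * S (12 / 5) ≤ (s - 4 / 3) * (0.0574 + e) :=
          mul_le_mul_of_nonneg_left u125 (by linarith)
        have a3 : ((12 / 5 - s) * S (4 / 3) + (s - 4 / 3) * S (12 / 5)) / (12 / 5 - 4 / 3) =
            15 / 16 * ((12 / 5 - s) * S (4 / 3) + (s - 4 / 3) * S (12 / 5)) := by ring
        rw [a3] at h1
        linarith
      have h1'' : S s ≤ 15 / 16 * ((12 / 5 - s) * 0.1378 + (s - 4 / 3) * 0.0574) + e := by
        nlinarith
      rcases le_or_gt s (3 / 2) with d1 | d1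
      · have h2 := EG_int (by norm_num) (by norm_num) (by norm_num) c3.le d1 q_43 q_32 j_43 j_32
        norm_num at h1'' h2
        nlinarith [sq_nonneg (s - 3 / 2)]
      rcases le_or_gt s (8 / 5) with d2 | d2
      · have h2 := EG_int (by norm_num) (by norm_num) (by norm_num) d1.le d2 q_32 q_85 j_32 j_85
        norm_num at h1'' h2
        nlinarith [sq_nonneg (s - 1.584)]
      rcases le_or_gt s (17 / 10) with d3 | d3
      · have h2 := EG_int (by norm_num) (by norm_num) (by norm_num) d2.le d3 q_85 q_17 j_85 j_17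
        norm_num at h1'' h2
        nlinarith [sq_nonneg (s - 1.654)]
      rcases le_or_gt s (37 / 20) with d4 | d4
      · have h2 := EG_int (by norm_num) (by norm_num) (by norm_num) d3.le d4 q_17 q_185 j_17 j_185
        norm_num at h1'' h2
        nlinarith [sq_nonneg (s - 1.7555)]
      · have h2 := EG_nonneg hs
        norm_num at h1''
        linarith
    · have h1 := hanti _ _ c4.le
      have h2 := EG_nonneg hs
      norm_num at u125
      linarith

end Pool.Agent.KS6_15.GU
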