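import Pool.Agent.KS6_15.GU.Ser

/-! Discretisation of the Fredholm determinant of the sine kernel: principal minors. -/

open Matrix MeasureTheory Set Filter Topology

namespace Pool.Agent.KS6_15.GU

open Pool.Agent.E8helper28.RM

/-- sums of minors over all maps -/
lemma sum_fun_eq {m : ℕ} (A : Matrix (Fin m) (Fin m) ℝ) (n : ℕ) :
    ∑ f : Fin n → Fin m, (A.submatrix f f).det = (n.factorial : ℝ) *
      ∑ S ∈ (Finset.univ : Finset (Fin m)).powersetCard n,
        (A.submatrix (Subtype.val : S → Fin m) (Subtype.val : S → Fin m)).det := by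
  classical
  have h1 : ∑ f : Fin n → Fin m, (A.submatrix f f).det =
      ∑ f ∈ (Finset.univ : Finset (Fin n → Fin m)).filter Function.Injective,
        (A.submatrix f f).det := by
    rw [Finset.sum_filter]
    apply Finset.sum_congr rfl
    intro f _
    split_ifs with h
    · rfl
    · rw [Function.not_injective_iff] at h
      obtain ⟨i, j, hij, hne⟩ := h
      apply Matrix.det_zero_of_row_eq hne
      ext k
      simp [hij]
  have hmaps : ∀ f ∈ (Finset.univ : Finset (Fin n → Fin m)).filter Function.Injective,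
      Finset.univ.image f ∈ (Finset.univ : Finset (Fin m)).powersetCard n := by
    intro f hf
    rw [Finset.mem_powersetCard]
    refine ⟨Finset.subset_univ _, ?_⟩
    rw [Finset.card_image_of_injective _ (Finset.mem_filter.1 hf).2]
    simp
  rw [h1, ← Finset.sum_fiberwise_of_maps_to hmaps, Finset.mul_sum]
  apply Finset.sum_congr rfl
  intro S hS
  have hSc : S.card = n := (Finset.mem_powersetCard.1 hS).2
  have h2 : ∀ f ∈ ((Finset.univ : Finset (Fin n → Fin m)).filter Function.Injective).filter
      (fun f => Finset.univ.image f = S), (A.submatrix f f).det =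
      (A.submatrix (Subtype.val : S → Fin m) (Subtype.val : S → Fin m)).det := by
    intro f hf
    rw [Finset.mem_filter, Finset.mem_filter] at hf
    obtain ⟨⟨_, hinj⟩, him⟩ := hf
    have hmem : ∀ a, f a ∈ S := fun a => by
      rw [← him]
      exact Finset.mem_image_of_mem _ (Finset.mem_univ a)
    have hbij : Function.Bijective (fun a => (⟨f a, hmem a⟩ : S)) := by
      constructor
      · intro a b hab
        exact hinj (Subtype.ext_iff.1 hab)
      · rintro ⟨b, hb⟩
        have hb' := hb
        rw [← him, Finset.mem_image] at hb'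
        obtain ⟨a, _, ha⟩ := hb'
        exact ⟨a, Subtype.ext ha⟩
    set e := Equiv.ofBijective _ hbij with he
    have e1 : A.submatrix f f = (A.submatrix (Subtype.val : S → Fin m)
        (Subtype.val : S → Fin m)).submatrix e e := by
      ext i j
      rfl
    rw [e1, Matrix.det_submatrix_equiv_self]
  rw [Finset.sum_congr rfl h2, Finset.sum_const, nsmul_eq_mul]
  congr 1
  norm_cast
  have e0 : Fin n ≃ S := (S.equivFinOfCardEq hSc).symm
  have hc : Fintype.card (Fin n ≃ S) = n.factorial := by
    rw [Fintype.card_equiv e0, Fintype.card_fin]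
  rw [← hc, ← Finset.card_univ]
  symm
  apply Finset.card_bij (fun (e : Fin n ≃ S) _ => fun a => ((e a : S) : Fin m))
  · intro e _
    rw [Finset.mem_filter, Finset.mem_filter]
    refine ⟨⟨Finset.mem_univ _, fun a b hab => e.injective (Subtype.ext hab)⟩, ?_⟩
    ext x
    rw [Finset.mem_image]
    constructor
    · rintro ⟨a, _, rfl⟩
      exact (e a).2
    · intro hx
      exact ⟨e.symm ⟨x, hx⟩, Finset.mem_univ _, by simp⟩
  · intro e _ e' _ h
    ext a
    have := congrFun h a
    exact congrArg _ this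
  · intro f hf
    rw [Finset.mem_filter, Finset.mem_filter] at hf
    obtain ⟨⟨_, hinj⟩, him⟩ := hf
    have hmem : ∀ a, f a ∈ S := fun a => by
      rw [← him]
      exact Finset.mem_image_of_mem _ (Finset.mem_univ a)
    have hbij : Function.Bijective (fun a => (⟨f a, hmem a⟩ : S)) := by
      constructor
      · intro a b hab
        exact hinj (Subtype.ext_iff.1 hab)
      · rintro ⟨b, hb⟩
        have hb' := hb
        rw [← him, Finset.mem_image] at hb'
        obtain ⟨a, _, ha⟩ := hb'
        exact ⟨a, Subtype.ext ha⟩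
    exact ⟨Equiv.ofBijective _ hbij, Finset.mem_univ _, rfl⟩

/-- expansion of `det (1 + x A)` -/
lemma det_expand {m : ℕ} (A : Matrix (Fin m) (Fin m) ℝ) (x : ℝ) :
    (1 + x • A).det = ∑' n : ℕ, x ^ n / (n.factorial : ℝ) *
      ∑ f : Fin n → Fin m, (A.submatrix f f).det := by
  classical
  set P : Polynomial ℝ := (1 + (Polynomial.X : Polynomial ℝ) • A.map Polynomial.C).det with hP
  have hcoeff : ∀ k, P.coeff k = ∑ s ∈ (Finset.univ : Finset (Fin m)).powersetCard k,
      (A.submatrix (Subtype.val : s → Fin m) (Subtype.val : s → Fin m)).det := fun k =>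
    Matrix.coeff_det_one_add_X_smul_eq_sum_minors A k
  have hz : ∀ k, m < k → P.coeff k = 0 := by
    intro k hk
    rw [hcoeff, Finset.powersetCard_eq_empty.2 (by simpa using hk), Finset.sum_empty]
  have hdeg : P.natDegree < m + 1 := by
    have : P.natDegree ≤ m := Polynomial.natDegree_le_iff_coeff_eq_zero.2 hz
    omega
  have hev : P.eval x = (1 + x • A).det := by
    rw [hP, ← Polynomial.coe_evalRingHom, RingHom.map_det]
    congr 1
    ext i j
    simp [Matrix.one_apply]
    split_ifs <;> simp <;> ring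
  rw [← hev, Polynomial.eval_eq_sum_range' hdeg]
  rw [tsum_eq_sum (s := Finset.range (m + 1))]
  · apply Finset.sum_congr rfl
    intro k _
    rw [hcoeff, sum_fun_eq]
    have : (k.factorial : ℝ) ≠ 0 := by positivity
    field_simp
  · intro k hk
    rw [Finset.mem_range, not_lt] at hk
    rw [sum_fun_eq, ← hcoeff, hz k (by omega)]
    ring

/-- the Toeplitz matrix -/
noncomputable def TM (h : ℝ) (m : ℕ) : Matrix (Fin m) (Fin m) ℝ :=
  Matrix.of fun i j => K (h * (i : ℝ) - h * (j : ℝ))

/-- the discretised determinant -/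
noncomputable def DD (h : ℝ) (m : ℕ) : ℝ := (1 + (-h) • TM h m).det

lemma psd_int {m : ℕ} {a b : ℝ} (hab : a ≤ b) (φ : Fin m → ℝ → ℝ) (hφ : ∀ i, Continuous (φ i)) :
    (Matrix.of fun i j => ∫ θ in a..b, φ i θ * φ j θ).PosSemidef := by
  rw [Matrix.posSemidef_iff_dotProduct_mulVec]
  constructor
  · ext i j
    simp only [conjTranspose_apply, of_apply, star_trivial]
    congr 1
    ext θ
    ring
  · intro v
    have e : star v ⬝ᵥ ((of fun i j => ∫ θ in a..b, φ i θ * φ j θ) *ᵥ v) =
        ∫ θ in a..b, (∑ i, v i * φ i θ) ^ 2 := by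
      have e1 : ∀ θ, (∑ i, v i * φ i θ) ^ 2 = ∑ i, ∑ j, v i * v j * (φ i θ * φ j θ) := by
        intro θ
        rw [pow_two, Finset.sum_mul_sum]
        refine Finset.sum_congr rfl fun i _ => Finset.sum_congr rfl fun j _ => ?_
        ring
      simp_rw [e1]
      rw [intervalIntegral.integral_finsetSum]
      · simp only [dotProduct, mulVec, star_trivial, of_apply]
        refine Finset.sum_congr rfl fun i _ => ?_
        rw [intervalIntegral.integral_finsetSum, Finset.mul_sum]
        · refine Finset.sum_congr rfl fun j _ => ?_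
          rw [intervalIntegral.integral_const_mul]
          ring
        · intro j _
          exact (((hφ _).mul (hφ _)).const_mul _).intervalIntegrable _ _
      · intro i _
        apply Continuous.intervalIntegrable
        refine continuous_finsetSum _ fun j _ => ?_
        exact ((hφ _).mul (hφ _)).const_mul _
    rw [e]
    apply intervalIntegral.integral_nonneg hab
    intro θ _
    positivity

/-- Fourier representation of `h K(h k)` -/
lemma hK_int (h : ℝ) (k : ℤ) : h * K (h * k) =
    2 * ∫ θ in (0 : ℝ)..(h / 2), Real.cos (2 * Real.pi * k * θ) := by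
  have hpi := Real.pi_pos
  by_cases hk : k = 0
  · subst hk
    simp [K_zero]
    ring
  · have hk' : (k : ℝ) ≠ 0 := by exact_mod_cast hk
    have h1 : 2 * Real.pi * (k : ℝ) ≠ 0 := by positivity
    rw [intervalIntegral.integral_comp_mul_left (fun y => Real.cos y) h1, integral_cos]
    rcases eq_or_ne h 0 with h0 | h0
    · subst h0; simp
    · have h2 : Real.pi * (h * k) ≠ 0 := by positivity
      unfold K
      rw [Real.sinc_of_ne_zero h2]
      rw [show 2 * Real.pi * (k : ℝ) * (h / 2) = Real.pi * (h * k) by ring]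
      simp only [mul_zero, Real.sin_zero, sub_zero, smul_eq_mul]
      field_simp

lemma one_sub_psd {h : ℝ} (h1 : h ≤ 1) (m : ℕ) : (1 + (-h) • TM h m).PosSemidef := by
  have key : ∀ i j : Fin m, (1 + (-h) • TM h m) i j =
      2 * ∫ θ in (h / 2)..(1 / 2), Real.cos (2 * Real.pi * (((i : ℤ) - (j : ℤ) : ℤ) : ℝ) * θ) := by
    intro i j
    have e1 := hK_int h ((i : ℤ) - (j : ℤ))
    have e2 := hK_int 1 ((i : ℤ) - (j : ℤ))
    have e3 : (1 : Matrix (Fin m) (Fin m) ℝ) i j = 1 * K (1 * (((i : ℤ) - (j : ℤ) : ℤ) : ℝ)) := by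
      rw [one_mul, one_mul]
      by_cases hij : i = j
      · subst hij
        simp [K_zero]
      · rw [Matrix.one_apply_ne hij]
        have hne : ((i : ℤ) - (j : ℤ)) ≠ 0 := by
          intro h0
          apply hij
          apply Fin.ext
          omega
        have hne' : (((i : ℤ) - (j : ℤ) : ℤ) : ℝ) ≠ 0 := by exact_mod_cast hne
        unfold K
        rw [Real.sinc_of_ne_zero (mul_ne_zero Real.pi_ne_zero hne'),
          mul_comm Real.pi, Real.sin_int_mul_pi, zero_div]
    have hc : Continuous fun θ => Real.cos (2 * Real.pi * (((i : ℤ) - (j : ℤ) : ℤ) : ℝ) * θ) := by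
      fun_prop
    have e4 : ∫ θ in (0 : ℝ)..(1 / 2), Real.cos (2 * Real.pi * (((i : ℤ) - (j : ℤ) : ℤ) : ℝ) * θ) =
        (∫ θ in (0 : ℝ)..(h / 2), Real.cos (2 * Real.pi * (((i : ℤ) - (j : ℤ) : ℤ) : ℝ) * θ)) +
        ∫ θ in (h / 2)..(1 / 2), Real.cos (2 * Real.pi * (((i : ℤ) - (j : ℤ) : ℤ) : ℝ) * θ) :=
      (intervalIntegral.integral_add_adjacent_intervals (hc.intervalIntegrable _ _)
        (hc.intervalIntegrable _ _)).symm
    rw [Matrix.add_apply, e3, e2, e4]
    have e5 : ((-h) • TM h m) i j = -(h * K (h * (((i : ℤ) - (j : ℤ) : ℤ) : ℝ))) := by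
      simp only [TM, Matrix.smul_apply, Matrix.of_apply, smul_eq_mul]
      push_cast
      rw [show h * (i : ℝ) - h * (j : ℝ) = h * ((i : ℝ) - j) by ring]
      ring
    rw [e5, e1]
    ring
  have hA := psd_int (m := m) (a := h / 2) (b := 1 / 2) (by linarith)
    (fun i θ => Real.cos (2 * Real.pi * (i : ℝ) * θ)) (fun i => by fun_prop)
  have hB := psd_int (m := m) (a := h / 2) (b := 1 / 2) (by linarith)
    (fun i θ => Real.sin (2 * Real.pi * (i : ℝ) * θ)) (fun i => by fun_prop)
  have hC := (hA.add hB).add (hA.add hB)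
  convert hC using 1
  ext i j
  rw [key i j]
  simp only [Matrix.add_apply, Matrix.of_apply]
  rw [← intervalIntegral.integral_add (Continuous.intervalIntegrable (by fun_prop) _ _)
    (Continuous.intervalIntegrable (by fun_prop) _ _)]
  have e : ∀ θ : ℝ, Real.cos (2 * Real.pi * (((i : ℤ) - (j : ℤ) : ℤ) : ℝ) * θ) =
      Real.cos (2 * Real.pi * (i : ℝ) * θ) * Real.cos (2 * Real.pi * (j : ℝ) * θ) +
      Real.sin (2 * Real.pi * (i : ℝ) * θ) * Real.sin (2 * Real.pi * (j : ℝ) * θ) := by
    intro θ
    rw [← Real.cos_sub]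
    congr 1
    push_cast
    ring
  simp_rw [e]
  ring

lemma DD_nonneg {h : ℝ} (h1 : h ≤ 1) (m : ℕ) : 0 ≤ DD h m := (one_sub_psd h1 m).det_nonneg

lemma DD_succ_le {h : ℝ} (h0 : 0 ≤ h) (h1 : h ≤ 1) (m : ℕ) : DD h (m + 1) ≤ DD h m := by
  have hf := fischer _ (one_sub_psd h1 (m + 1))
  have e1 : (1 + (-h) • TM h (m + 1)) 0 0 = 1 - h := by
    simp [TM, K_zero]
    ring
  have e2 : (1 + (-h) • TM h (m + 1)).submatrix Fin.succ Fin.succ = 1 + (-h) • TM h m := by
    ext i j
    simp only [Matrix.submatrix_apply, Matrix.add_apply, Matrix.smul_apply, TM, Matrix.of_apply,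
      smul_eq_mul, Fin.val_succ]
    congr 1
    · by_cases hij : i = j
      · subst hij; simp
      · rw [Matrix.one_apply_ne hij, Matrix.one_apply_ne (by
          intro hh; exact hij (Fin.succ_injective _ hh))]
    · push_cast
      congr 2
      ring
  rw [e1, e2] at hf
  have h3 := DD_nonneg h1 m
  have h4 : (1 - h) * DD h m ≤ 1 * DD h m := mul_le_mul_of_nonneg_right (by linarith) h3
  unfold DD at h3 h4 ⊢
  linarith

lemma DD_anti {h : ℝ} (h0 : 0 ≤ h) (h1 : h ≤ 1) {m n : ℕ} (hmn : m ≤ n) : DD h n ≤ DD h m := by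
  induction n, hmn using Nat.le_induction with
  | base => exact le_rfl
  | succ n _ ih => exact (DD_succ_le h0 h1 n).trans ih

/-- Hadamard's bound -/
lemma det_le_one (n : ℕ) (x : Fin n → ℝ) : (Matrix.of fun i j => kK (x i) (x j)).det ≤ 1 := by
  induction n with
  | zero => simp
  | succ n ih =>
    have hf := fischer _ (good_kK.psd (n + 1) x)
    have e1 : (Matrix.of fun i j => kK (x i) (x j)) 0 0 = 1 := by simp [kK, K_zero]
    rw [e1, one_mul] at hf
    exact hf.trans (ih fun i => x i.succ)

end Pool.Agent.KS6_15.GU
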