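import Pool.Agent.KS6_15.GU.Val

/-! Values at the nodes. -/

open Set

namespace Pool.Agent.KS6_15.GU

open Pool.Agent.E8helper28.RM

lemma q_12 : QQ (1 / 2) ≤ 0.21985 := by
  have h := QQ_up (t := 1 / 2) (v := 21985 / 100000) (by norm_num) (by decide +kernel)
  push_cast at h
  norm_num at h ⊢
  exact h

lemma j_12 : J kK (1 / 2) 3 ≤ 0.00004 := by
  have h := c3_up (t := 1 / 2) (v := 4 / 100000) (by norm_num) (by norm_num) (by decide +kernel)
  push_cast at h
  norm_num at h ⊢
  exact h

lemma q_34 : QQ (3 / 4) ≤ 0.43097 := by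
  have h := QQ_up (t := 3 / 4) (v := 43097 / 100000) (by norm_num) (by decide +kernel)
  push_cast at h
  norm_num at h ⊢
  exact h

lemma j_34 : J kK (3 / 4) 3 ≤ 0.00109 := by
  have h := c3_up (t := 3 / 4) (v := 109 / 100000) (by norm_num) (by norm_num) (by decide +kernel)
  push_cast at h
  norm_num at h ⊢
  exact h

lemma q_1 : QQ 1 ≤ 0.65584 := by
  have h := QQ_up (t := 1) (v := 65584 / 100000) (by norm_num) (by decide +kernel)
  push_cast at h
  norm_num at h ⊢
  exact h

lemma j_1 : J kK 1 3 ≤ 0.01121 := by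
  have h := c3_up (t := 1) (v := 1121 / 100000) (by norm_num) (by norm_num) (by decide +kernel)
  push_cast at h
  norm_num at h ⊢
  exact h

lemma q_43 : QQ (4 / 3) ≤ 0.95804 := by
  have h := QQ_up (t := 4 / 3) (v := 95804 / 100000) (by norm_num) (by decide +kernel)
  push_cast at h
  norm_num at h ⊢
  exact h

lemma j_43 : J kK (4 / 3) 3 ≤ 0.09738 := by
  have h := c3_up (t := 4 / 3) (v := 9738 / 100000) (by norm_num) (by norm_num) (by decide +kernel)
  push_cast at h
  norm_num at h ⊢
  exact h

lemma q_32 : QQ (3 / 2) ≤ 1.11194 := by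
  have h := QQ_up (t := 3 / 2) (v := 111194 / 100000) (by norm_num) (by decide +kernel)
  push_cast at h
  norm_num at h ⊢
  exact h

lemma j_32 : J kK (3 / 2) 3 ≤ 0.21909 := by
  have h := c3_up (t := 3 / 2) (v := 21909 / 100000) (by norm_num) (by norm_num) (by decide +kernel)
  push_cast at h
  norm_num at h ⊢
  exact h

lemma q_85 : QQ (8 / 5) ≤ 1.20547 := by
  have h := QQ_up (t := 8 / 5) (v := 120547 / 100000) (by norm_num) (by decide +kernel)
  push_cast at h
  norm_num at h ⊢
  exact h

lemma j_85 : J kK (8 / 5) 3 ≤ 0.33406 := by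
  have h := c3_up (t := 8 / 5) (v := 33406 / 100000) (by norm_num) (by norm_num) (by decide +kernel)
  push_cast at h
  norm_num at h ⊢
  exact h

lemma q_17 : QQ (17 / 10) ≤ 1.29971 := by
  have h := QQ_up (t := 17 / 10) (v := 129971 / 100000) (by norm_num) (by decide +kernel)
  push_cast at h
  norm_num at h ⊢
  exact h

lemma j_17 : J kK (17 / 10) 3 ≤ 0.48878 := by
  have h := c3_up (t := 17 / 10) (v := 48878 / 100000) (by norm_num) (by norm_num)
    (by decide +kernel)
  push_cast at h
  norm_num at h ⊢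
  exact h

lemma q_185 : QQ (37 / 20) ≤ 1.44187 := by
  have h := QQ_up (t := 37 / 20) (v := 144187 / 100000) (by norm_num) (by decide +kernel)
  push_cast at h
  norm_num at h ⊢
  exact h

lemma j_185 : J kK (37 / 20) 3 ≤ 0.80949 := by
  have h := c3_up (t := 37 / 20) (v := 80949 / 100000) (by norm_num) (by norm_num)
    (by decide +kernel)
  push_cast at h
  norm_num at h ⊢
  exact h

/-! ### lower bounds for the second trace -/

lemma r1 : 0.50584 ≤ QQ 0.8337 := by
  have h := QQ_lo (t := 8337 / 10000) (v := 50584 / 100000) (by norm_num) (by decide +kernel)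
  push_cast at h
  norm_num at h ⊢
  exact h

lemma r2 : 0.54411 ≤ QQ 0.8762 := by
  have h := QQ_lo (t := 8762 / 10000) (v := 54411 / 100000) (by norm_num) (by decide +kernel)
  push_cast at h
  norm_num at h ⊢
  exact h

lemma r3 : 0.58578 ≤ QQ 0.9224 := by
  have h := QQ_lo (t := 9224 / 10000) (v := 58578 / 100000) (by norm_num) (by decide +kernel)
  push_cast at h
  norm_num at h ⊢
  exact h

lemma r4 : 0.62938 ≤ QQ 0.9707 := by
  have h := QQ_lo (t := 9707 / 10000) (v := 62938 / 100000) (by norm_num) (by decide +kernel)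
  push_cast at h
  norm_num at h ⊢
  exact h

lemma r5 : 0.68824 ≤ QQ 1.0359 := by
  have h := QQ_lo (t := 10359 / 10000) (v := 68824 / 100000) (by norm_num) (by decide +kernel)
  push_cast at h
  norm_num at h ⊢
  exact h

lemma r6 : 0.77414 ≤ QQ 1.131 := by
  have h := QQ_lo (t := 1131 / 1000) (v := 77414 / 100000) (by norm_num) (by decide +kernel)
  push_cast at h
  norm_num at h ⊢
  exact h

lemma r7 : 0.84567 ≤ QQ 1.21 := by
  have h := QQ_lo (t := 121 / 100) (v := 84567 / 100000) (by norm_num) (by decide +kernel)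
  push_cast at h
  norm_num at h ⊢
  exact h

end Pool.Agent.KS6_15.GU
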