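import Pool.Agent.KS6_15.GU.Ser

/-! Polynomial bounds for the traces of the sine kernel. -/

open Matrix MeasureTheory Set Filter Topology

namespace Pool.Agent.KS6_15.GU

open Pool.Agent.E8helper28.RM

/-- the beta integral -/
lemma beta (j : ℕ) : ∀ (i : ℕ) (a : ℝ), ∫ b in (0 : ℝ)..a, b ^ i * (a - b) ^ j =
    a ^ (i + j + 1) * ((i.factorial * j.factorial : ℝ) / ((i + j + 1).factorial : ℝ)) := by
  induction j with
  | zero =>
    intro i a
    simp only [pow_zero, mul_one, integral_pow, Nat.factorial_zero, Nat.cast_one, add_zero]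
    rw [Nat.factorial_succ]
    push_cast
    have h1 : (i.factorial : ℝ) ≠ 0 := by positivity
    field_simp
    simp
  | succ j ih =>
    intro i a
    have hd : ∀ x ∈ Set.uIcc (0 : ℝ) a, HasDerivAt (fun b : ℝ => b ^ (i + 1) / (i + 1) * (a - b) ^ (j + 1))
        (x ^ i * (a - x) ^ (j + 1) - (j + 1) / (i + 1) * (x ^ (i + 1) * (a - x) ^ j)) x := by
      intro x _
      have d1 := (hasDerivAt_pow (i + 1) x).div_const ((i : ℝ) + 1)
      have d2 := ((hasDerivAt_id x).const_sub a).pow (j + 1)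
      have d := d1.mul d2
      refine d.congr_deriv ?_
      simp only [id]
      push_cast
      have h1 : (i : ℝ) + 1 ≠ 0 := by positivity
      field_simp
      simp
      ring
    have hi := intervalIntegral.integral_eq_sub_of_hasDerivAt hd
      (Continuous.intervalIntegrable (by fun_prop) _ _)
    rw [intervalIntegral.integral_sub (Continuous.intervalIntegrable (by fun_prop) _ _)
      (Continuous.intervalIntegrable (by fun_prop) _ _), intervalIntegral.integral_const_mul,
      ih (i + 1) a] at hi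
    simp only [sub_self, ne_eq, Nat.add_eq_zero_iff, one_ne_zero, and_false, not_false_eq_true,
      zero_pow, mul_zero, zero_div, zero_mul] at hi
    have h2 : ∫ b in (0 : ℝ)..a, b ^ i * (a - b) ^ (j + 1) = (j + 1) / (i + 1) *
        (a ^ (i + 1 + j + 1) * (((i + 1).factorial * j.factorial : ℝ) /
          ((i + 1 + j + 1).factorial : ℝ))) := by linarith
    rw [h2, show i + 1 + j + 1 = i + (j + 1) + 1 by ring, Nat.factorial_succ i,
      Nat.factorial_succ j]
    push_cast
    have h1 : (i : ℝ) + 1 ≠ 0 := by positivity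
    field_simp

/-- the coefficients of the kernel -/
noncomputable def cf (p : ℝ) (j : ℕ) : ℝ := (-1) ^ j * p ^ j / ((2 * j + 1).factorial : ℝ)

/-- partial sums of the kernel -/
noncomputable def Pt (p u : ℝ) : ℝ := ∑ j ∈ Finset.range 11, cf p j * u ^ (2 * j)

lemma Pt_cont (p : ℝ) : Continuous (Pt p) := by
  unfold Pt
  fun_prop

lemma K_le_Pt (u : ℝ) : K u ≤ Pt (Real.pi ^ 2) u := by
  refine (K_le 5 u).trans (le_of_eq ?_)
  unfold Pt cf
  apply Finset.sum_congr rfl
  intro j _
  ring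

lemma Pt_le_K (u : ℝ) : Pt (Real.pi ^ 2) u - (Real.pi ^ 2) ^ 11 * u ^ 22 / ((23 : ℕ).factorial : ℝ) ≤ K u := by
  refine le_trans (le_of_eq ?_) (K_ge 5 u)
  rw [show 2 * 5 + 2 = 11 + 1 by norm_num, Finset.sum_range_succ]
  unfold Pt cf
  rw [sub_eq_add_neg]
  congr 1
  · apply Finset.sum_congr rfl
    intro j _
    ring
  · have : (2 * 11 + 1).factorial = Nat.factorial 23 := rfl
    rw [this]
    ring

lemma K_near {u : ℝ} (h0 : 0 ≤ u) (h1 : u ≤ 37 / 20) : 0 ≤ Pt (Real.pi ^ 2) u - K u ∧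
    Pt (Real.pi ^ 2) u - K u ≤ 3 / 1000000 := by
  refine ⟨by linarith [K_le_Pt u], ?_⟩
  have h2 := Pt_le_K u
  have h3 : (Real.pi ^ 2) ^ 11 * u ^ 22 / ((23 : ℕ).factorial : ℝ) ≤ 3 / 1000000 := by
    have a1 : (Real.pi ^ 2) ^ 11 ≤ phi ^ 11 := pow_le_pow_left₀ (by positivity) le_phi 11
    have a2 : u ^ 22 ≤ (37 / 20) ^ 22 := pow_le_pow_left₀ h0 h1 22
    have a3 : (Real.pi ^ 2) ^ 11 * u ^ 22 ≤ phi ^ 11 * (37 / 20) ^ 22 := by
      apply mul_le_mul a1 a2 (by positivity)
      unfold phi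
      positivity
    rw [div_le_iff₀ (by positivity)]
    refine a3.trans ?_
    unfold phi
    norm_num [Nat.factorial]
  linarith

lemma prod_near {x y z X Y Z e : ℝ} (he0 : 0 ≤ e) (he : e ≤ 1 / 10) (hx : |x| ≤ 1) (hy : |y| ≤ 1)
    (h1 : |X - x| ≤ e) (h2 : |Y - y| ≤ e) (h3 : |Z - z| ≤ e) (hz : |z| ≤ 1) :
    x * y * z ≤ X * Y * Z + 4 * e := by
  have hY : |Y| ≤ 1 + e := by
    have : Y = y + (Y - y) := by ring
    rw [this]
    exact (abs_add_le _ _).trans (by linarith)
  have hZ : |Z| ≤ 1 + e := by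
    have : Z = z + (Z - z) := by ring
    rw [this]
    exact (abs_add_le _ _).trans (by linarith)
  have e1 : x * y * z - X * Y * Z = -((X - x) * Y * Z) - x * (Y - y) * Z - x * y * (Z - z) := by ring
  have b1 : |(X - x) * Y * Z| ≤ e * (1 + e) * (1 + e) := by
    rw [abs_mul, abs_mul]
    gcongr
  have b2 : |x * (Y - y) * Z| ≤ 1 * e * (1 + e) := by
    rw [abs_mul, abs_mul]
    gcongr
  have b3 : |x * y * (Z - z)| ≤ 1 * 1 * e := by
    rw [abs_mul, abs_mul]
    gcongr
  have c1 := neg_abs_le ((X - x) * Y * Z)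
  have c2 := neg_abs_le (x * (Y - y) * Z)
  have c3 := neg_abs_le (x * y * (Z - z))
  have d1 : e * (1 + e) ≤ e * (11 / 10) := mul_le_mul_of_nonneg_left (by linarith) he0
  have d2 : e * (1 + e) * (1 + e) ≤ e * (11 / 10) * (11 / 10) :=
    mul_le_mul d1 (by linarith) (by linarith) (by positivity)
  linarith

/-- the coefficient of the triple sum -/
noncomputable def c3f (p : ℝ) (i j k : ℕ) : ℝ := cf p i * cf p j * cf p k *
  (((2 * i).factorial * (2 * j).factorial : ℝ) / ((2 * i + 2 * j + 1).factorial : ℝ))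

lemma int_b (p a : ℝ) : ∫ b in (0 : ℝ)..a, Pt p b * Pt p (a - b) * Pt p a =
    ∑ i ∈ Finset.range 11, ∑ j ∈ Finset.range 11, ∑ k ∈ Finset.range 11,
      c3f p i j k * a ^ (2 * (i + j + k) + 1) := by
  have e : ∀ b, Pt p b * Pt p (a - b) * Pt p a = ∑ i ∈ Finset.range 11, ∑ j ∈ Finset.range 11,
      ∑ k ∈ Finset.range 11, cf p i * cf p j * cf p k * a ^ (2 * k) *
        (b ^ (2 * i) * (a - b) ^ (2 * j)) := by
    intro b
    unfold Pt
    rw [Finset.sum_mul_sum, Finset.sum_mul]
    apply Finset.sum_congr rfl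
    intro i _
    rw [Finset.sum_mul]
    apply Finset.sum_congr rfl
    intro j _
    rw [Finset.mul_sum]
    apply Finset.sum_congr rfl
    intro k _
    ring
  simp_rw [e]
  rw [intervalIntegral.integral_finsetSum (fun i _ => Continuous.intervalIntegrable (by fun_prop) _ _)]
  apply Finset.sum_congr rfl
  intro i _
  rw [intervalIntegral.integral_finsetSum (fun i _ => Continuous.intervalIntegrable (by fun_prop) _ _)]
  apply Finset.sum_congr rfl
  intro j _
  rw [intervalIntegral.integral_finsetSum (fun i _ => Continuous.intervalIntegrable (by fun_prop) _ _)]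
  apply Finset.sum_congr rfl
  intro k _
  rw [intervalIntegral.integral_const_mul, beta]
  unfold c3f
  rw [show 2 * (i + j + k) + 1 = 2 * k + (2 * i + 2 * j + 1) by ring, pow_add]
  ring

lemma int_ax (n : ℕ) (t : ℝ) : ∫ x in (0 : ℝ)..t, ∫ a in (0 : ℝ)..x, a ^ n =
    t ^ (n + 2) / ((n + 1) * (n + 2)) := by
  simp_rw [integral_pow]
  simp only [ne_eq, Nat.add_eq_zero_iff, one_ne_zero, and_false, not_false_eq_true, zero_pow,
    sub_zero]
  rw [intervalIntegral.integral_div, integral_pow]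
  push_cast
  simp only [ne_eq, Nat.add_eq_zero_iff, one_ne_zero, and_false, not_false_eq_true, zero_pow,
    sub_zero]
  field_simp
  ring

/-- the polynomial for the third trace -/
noncomputable def P3P (p t : ℝ) : ℝ := 6 * ∑ i ∈ Finset.range 11, ∑ j ∈ Finset.range 11,
  ∑ k ∈ Finset.range 11, c3f p i j k * (t ^ (2 * (i + j + k) + 3) /
    ((2 * (i + j + k) + 2) * (2 * (i + j + k) + 3)))

lemma int_P3P (p t : ℝ) : 6 * ∫ x in (0 : ℝ)..t, ∫ a in (0 : ℝ)..x, ∫ b in (0 : ℝ)..a,
    Pt p b * Pt p (a - b) * Pt p a = P3P p t := by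
  unfold P3P
  congr 1
  simp_rw [int_b]
  have h1 : ∀ x : ℝ, ∫ a in (0 : ℝ)..x, ∑ i ∈ Finset.range 11, ∑ j ∈ Finset.range 11,
      ∑ k ∈ Finset.range 11, c3f p i j k * a ^ (2 * (i + j + k) + 1) =
      ∑ i ∈ Finset.range 11, ∑ j ∈ Finset.range 11,
      ∑ k ∈ Finset.range 11, c3f p i j k * ∫ a in (0 : ℝ)..x, a ^ (2 * (i + j + k) + 1) := by
    intro x
    rw [intervalIntegral.integral_finsetSum (fun i _ => Continuous.intervalIntegrable (by fun_prop) _ _)]
    apply Finset.sum_congr rfl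
    intro i _
    rw [intervalIntegral.integral_finsetSum (fun i _ => Continuous.intervalIntegrable (by fun_prop) _ _)]
    apply Finset.sum_congr rfl
    intro j _
    rw [intervalIntegral.integral_finsetSum (fun i _ => Continuous.intervalIntegrable (by fun_prop) _ _)]
    apply Finset.sum_congr rfl
    intro k _
    rw [intervalIntegral.integral_const_mul]
  simp_rw [h1]
  have hc : ∀ n : ℕ, Continuous fun x : ℝ => ∫ a in (0 : ℝ)..x, a ^ n := by
    intro n
    simp_rw [integral_pow]
    fun_prop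
  rw [intervalIntegral.integral_finsetSum (fun i _ => Continuous.intervalIntegrable (by fun_prop) _ _)]
  apply Finset.sum_congr rfl
  intro i _
  rw [intervalIntegral.integral_finsetSum (fun i _ => Continuous.intervalIntegrable (by fun_prop) _ _)]
  apply Finset.sum_congr rfl
  intro j _
  rw [intervalIntegral.integral_finsetSum (fun i _ => Continuous.intervalIntegrable (by fun_prop) _ _)]
  apply Finset.sum_congr rfl
  intro k _
  rw [intervalIntegral.integral_const_mul, int_ax]
  push_cast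
  ring_nf

lemma P3_le {t : ℝ} (h0 : 0 ≤ t) (h1 : t ≤ 37 / 20) :
    P3 t ≤ P3P (Real.pi ^ 2) t + 12 / 1000000 * t ^ 3 := by
  rw [← int_P3P]
  unfold P3
  set p := Real.pi ^ 2 with hp
  have hP := Pt_cont p
  have c1 : Continuous fun q : ℝ × ℝ => K q.1 * K (q.2 - q.1) * K q.2 := by fun_prop
  have c2 : Continuous fun q : ℝ × ℝ => Pt p q.1 * Pt p (q.2 - q.1) * Pt p q.2 + 12 / 1000000 :=
    (((hP.comp continuous_fst).mul (hP.comp (continuous_snd.sub continuous_fst))).mul
      (hP.comp continuous_snd)).add continuous_const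
  have hle : ∀ x : ℝ, 0 ≤ x → x ≤ t → ∫ a in (0 : ℝ)..x, ∫ b in (0 : ℝ)..a,
      K b * K (a - b) * K a ≤ ∫ a in (0 : ℝ)..x, ∫ b in (0 : ℝ)..a,
        (Pt p b * Pt p (a - b) * Pt p a + 12 / 1000000) := by
    intro x hx0 hx1
    apply intervalIntegral.integral_mono_on hx0 ((inner_cont c1).intervalIntegrable _ _)
      ((inner_cont c2).intervalIntegrable _ _)
    intro a ha
    apply intervalIntegral.integral_mono_on ha.1 (Continuous.intervalIntegrable (by fun_prop) _ _)
      (Continuous.intervalIntegrable (by fun_prop) _ _)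
    intro b hb
    have n1 := K_near hb.1 (hb.2.trans (ha.2.trans (hx1.trans h1)))
    have n2 := K_near (u := a - b) (by linarith [hb.2]) (by linarith [hb.1, ha.2])
    have n3 := K_near ha.1 (ha.2.trans (hx1.trans h1))
    rw [← hp] at n1 n2 n3
    have := prod_near (e := 3 / 1000000) (by norm_num) (by norm_num) (abs_K_le b) (abs_K_le (a - b))
      (by rw [abs_of_nonneg n1.1]; exact n1.2) (by rw [abs_of_nonneg n2.1]; exact n2.2)
      (by rw [abs_of_nonneg n3.1]; exact n3.2) (abs_K_le a)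
    linarith
  have c3 : Continuous fun x => ∫ a in (0 : ℝ)..x, ∫ b in (0 : ℝ)..a, K b * K (a - b) * K a :=
    intervalIntegral.continuous_primitive (fun a b => (inner_cont c1).intervalIntegrable a b) 0
  have c4 : Continuous fun x => ∫ a in (0 : ℝ)..x, ∫ b in (0 : ℝ)..a,
      (Pt p b * Pt p (a - b) * Pt p a + 12 / 1000000) :=
    intervalIntegral.continuous_primitive (fun a b => (inner_cont c2).intervalIntegrable a b) 0
  have h5 : ∫ x in (0 : ℝ)..t, ∫ a in (0 : ℝ)..x, ∫ b in (0 : ℝ)..a, K b * K (a - b) * K a ≤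
      ∫ x in (0 : ℝ)..t, ∫ a in (0 : ℝ)..x, ∫ b in (0 : ℝ)..a,
        (Pt p b * Pt p (a - b) * Pt p a + 12 / 1000000) :=
    intervalIntegral.integral_mono_on h0 (c3.intervalIntegrable _ _) (c4.intervalIntegrable _ _)
      (fun x hx => hle x hx.1 hx.2)
  have c5 : Continuous fun q : ℝ × ℝ => Pt p q.1 * Pt p (q.2 - q.1) * Pt p q.2 :=
    (((hP.comp continuous_fst).mul (hP.comp (continuous_snd.sub continuous_fst))).mul
      (hP.comp continuous_snd))
  have e1 : ∀ a : ℝ, ∫ b in (0 : ℝ)..a, (Pt p b * Pt p (a - b) * Pt p a + 12 / 1000000) =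
      (∫ b in (0 : ℝ)..a, Pt p b * Pt p (a - b) * Pt p a) + 12 / 1000000 * a := by
    intro a
    rw [intervalIntegral.integral_add (Continuous.intervalIntegrable (by fun_prop) _ _)
      (by simp), intervalIntegral.integral_const, smul_eq_mul]
    ring
  have e2 : ∀ x : ℝ, ∫ a in (0 : ℝ)..x, ((∫ b in (0 : ℝ)..a, Pt p b * Pt p (a - b) * Pt p a) +
      12 / 1000000 * a) = (∫ a in (0 : ℝ)..x, ∫ b in (0 : ℝ)..a, Pt p b * Pt p (a - b) * Pt p a) +
        6 / 1000000 * x ^ 2 := by
    intro x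
    rw [intervalIntegral.integral_add ((inner_cont c5).intervalIntegrable _ _)
      (Continuous.intervalIntegrable (by fun_prop) _ _), intervalIntegral.integral_const_mul,
      integral_id]
    ring
  have c6 : Continuous fun x => ∫ a in (0 : ℝ)..x, ∫ b in (0 : ℝ)..a,
      Pt p b * Pt p (a - b) * Pt p a :=
    intervalIntegral.continuous_primitive (fun a b => (inner_cont c5).intervalIntegrable a b) 0
  simp_rw [e1, e2] at h5
  rw [intervalIntegral.integral_add (c6.intervalIntegrable _ _)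
    (Continuous.intervalIntegrable (by fun_prop) _ _), intervalIntegral.integral_const_mul,
    integral_pow] at h5
  have e3 : 6 / 1000000 * ((t ^ (2 + 1) - 0 ^ (2 + 1)) / (((2 : ℕ) : ℝ) + 1)) =
      2 / 1000000 * t ^ 3 := by
    push_cast
    ring
  rw [e3] at h5
  linarith

end Pool.Agent.KS6_15.GU
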