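import Pool.Agent.KS6_15.GU.Tri
import Pool.Graph.R_pool_sql_team_seeded_b677cdb8.E8helper28.RM.SNum

/-! The first terms of the Fredholm series of the sine kernel. -/

open Matrix MeasureTheory Set Filter Topology

namespace Pool.Agent.KS6_15.GU

open Pool.Agent.E8helper28.RM

/-- the sine kernel as a function of two variables -/
noncomputable def kK (x y : ℝ) : ℝ := K (x - y)

lemma good_kK : Good kK := by
  have e : kK = fun x y => kp 0 x y + km 0 x y := by
    funext x y
    unfold kK kp km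
    ring
  refine ⟨by unfold kK; fun_prop, fun n x => ?_⟩
  have h1 := (good_kp 0).psd n x
  have h2 := (good_km 0).psd n x
  have h3 := h1.add h2
  convert h3 using 1
  ext i j
  rw [e]
  simp

lemma tau_kK {s : ℝ} (hs : 0 ≤ s) : tau kK s = s := by
  unfold tau
  rw [Icc_int hs]
  simp [kK, K_zero]

/-- the gap probability of the sine process -/
noncomputable def EG (s : ℝ) : ℝ := fred kK s

/-- `∫_0^x K²` -/
noncomputable def Ph (x : ℝ) : ℝ := ∫ u in (0 : ℝ)..x, K u ^ 2

lemma Ph_cont : Continuous Ph := by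
  have h : Continuous fun u => K u ^ 2 := by fun_prop
  exact intervalIntegral.continuous_primitive (fun a b => h.intervalIntegrable a b) 0

lemma Ph_mono : Monotone Ph := by
  intro a b hab
  have h : Continuous fun u => K u ^ 2 := by fun_prop
  have e : Ph b = Ph a + ∫ u in a..b, K u ^ 2 :=
    (intervalIntegral.integral_add_adjacent_intervals (h.intervalIntegrable _ _)
      (h.intervalIntegrable _ _)).symm
  have h2 : 0 ≤ ∫ u in a..b, K u ^ 2 :=
    intervalIntegral.integral_nonneg hab fun u _ => sq_nonneg _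
  linarith

lemma QQ_eq {s : ℝ} (hs : 0 ≤ s) : QQ s = 2 * ∫ x in (0 : ℝ)..s, Ph x := by
  unfold QQ
  rw [sym2 (f := fun x y => K (x - y) ^ 2) (by fun_prop) (fun x y => by
    rw [← K_even (x - y), neg_sub]) hs]
  congr 1
  apply intervalIntegral.integral_congr
  intro x _
  simp only
  rw [intervalIntegral.integral_comp_sub_left (fun u => K u ^ 2) x, sub_self, sub_zero]
  rfl

lemma J2 {s : ℝ} (hs : 0 ≤ s) : J kK s 2 = s ^ 2 - QQ s := by
  rw [J_two good_kK, tau_kK hs]
  simp_rw [Icc_int hs]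
  unfold QQ
  congr 1
  apply intervalIntegral.integral_congr
  intro x _
  apply intervalIntegral.integral_congr
  intro y _
  simp only [kK]
  rw [← K_even (y - x), neg_sub]
  ring

/-- the third order determinant -/
noncomputable def F3 (x y z : ℝ) : ℝ := 1 + 2 * (K (x - y) * K (y - z) * K (x - z)) -
  K (x - y) ^ 2 - K (y - z) ^ 2 - K (x - z) ^ 2

lemma F3_cont : Continuous fun p : ℝ × ℝ × ℝ => F3 p.1 p.2.1 p.2.2 := by
  unfold F3
  fun_prop

lemma det3 (v : Fin 3 → ℝ) : (Matrix.of fun i j => kK (v i) (v j)).det = F3 (v 0) (v 1) (v 2) := by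
  have s : ∀ a b, K (a - b) = K (b - a) := fun a b => by rw [← K_even, neg_sub]
  rw [det_fin_three]
  simp only [of_apply, kK, sub_self, K_zero]
  rw [s (v 1) (v 0), s (v 2) (v 0), s (v 2) (v 1)]
  unfold F3
  ring

lemma F3_nonneg (x y z : ℝ) : 0 ≤ F3 x y z := by
  have h := det_nonneg good_kK 3 ![x, y, z]
  rw [det3] at h
  simpa using h

lemma J3_int {s : ℝ} (hs : 0 ≤ s) : J kK s 3 =
    ∫ x in (0 : ℝ)..s, ∫ y in (0 : ℝ)..s, ∫ z in (0 : ℝ)..s, F3 x y z := by
  rw [J_succ]
  have h := measurePreserving_finTwoArrow (volume.restrict (Set.Icc (0 : ℝ) s))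
  have e : ∀ p : ℝ × (Fin 2 → ℝ), (Matrix.of fun i j => kK ((Fin.cons p.1 p.2 : Fin (2 + 1) → ℝ) i)
      ((Fin.cons p.1 p.2 : Fin (2 + 1) → ℝ) j)).det = F3 p.1 (p.2 0) (p.2 1) := by
    intro p
    have := det3 (Fin.cons p.1 p.2 : Fin (2 + 1) → ℝ)
    exact this
  simp_rw [e]
  have hc : Continuous fun p : ℝ × (Fin 2 → ℝ) => F3 p.1 (p.2 0) (p.2 1) := by
    unfold F3
    fun_prop
  have hI : Integrable (fun p : ℝ × (Fin 2 → ℝ) => F3 p.1 (p.2 0) (p.2 1))
      ((volume.restrict (Set.Icc (0 : ℝ) s)).prod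
      (Measure.pi fun _ : Fin 2 => volume.restrict (Set.Icc (0 : ℝ) s))) := by
    have h : IntegrableOn (fun p : ℝ × (Fin 2 → ℝ) => F3 p.1 (p.2 0) (p.2 1))
        (Set.Icc (0 : ℝ) s ×ˢ (Set.univ.pi fun _ : Fin 2 => Set.Icc (0 : ℝ) s))
        (volume.prod volume) :=
      hc.continuousOn.integrableOn_compact
        (isCompact_Icc.prod (isCompact_univ_pi fun _ => isCompact_Icc))
    unfold IntegrableOn at h
    rw [← Measure.prod_restrict] at h
    rw [← Measure.restrict_pi_pi]
    exact h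
  rw [integral_prod _ hI, Icc_int hs]
  apply intervalIntegral.integral_congr
  intro x _
  simp only
  have h2 : ∫ v : Fin 2 → ℝ, F3 x (v 0) (v 1) ∂(Measure.pi fun _ : Fin 2 =>
      volume.restrict (Set.Icc (0 : ℝ) s)) = ∫ q : ℝ × ℝ, F3 x q.1 q.2
      ∂((volume.restrict (Set.Icc (0 : ℝ) s)).prod (volume.restrict (Set.Icc (0 : ℝ) s))) := by
    rw [← h.integral_comp (MeasurableEquiv.measurableEmbedding _)]
    rfl
  rw [h2]
  have hc2 : Continuous fun q : ℝ × ℝ => F3 x q.1 q.2 := by
    unfold F3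
    fun_prop
  have hI2 : Integrable (fun q : ℝ × ℝ => F3 x q.1 q.2)
      ((volume.restrict (Set.Icc (0 : ℝ) s)).prod (volume.restrict (Set.Icc (0 : ℝ) s))) := by
    have h : IntegrableOn (fun q : ℝ × ℝ => F3 x q.1 q.2) (Set.Icc (0 : ℝ) s ×ˢ Set.Icc (0 : ℝ) s)
        (volume.prod volume) :=
      hc2.continuousOn.integrableOn_compact (isCompact_Icc.prod isCompact_Icc)
    unfold IntegrableOn at h
    rw [← Measure.prod_restrict] at h
    exact h
  rw [integral_prod _ hI2, Icc_int hs]
  apply intervalIntegral.integral_congr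
  intro y _
  simp only
  rw [Icc_int hs]

/-- the ordered third order density -/
noncomputable def H3 (b a : ℝ) : ℝ := 1 + 2 * (K b * K (a - b) * K a) - K b ^ 2 - K (a - b) ^ 2 -
  K a ^ 2

lemma H3_cont : Continuous fun p : ℝ × ℝ => H3 p.1 p.2 := by
  unfold H3
  fun_prop

lemma F3_H3 (x y z : ℝ) : F3 x y z = H3 (x - y) (x - z) := by
  unfold F3 H3
  rw [show x - z - (x - y) = y - z by ring]

lemma H3_nonneg (b a : ℝ) : 0 ≤ H3 b a := by
  have h := F3_nonneg a (a - b) 0
  rw [F3_H3] at h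
  simpa using h

/-- the derivative of `c₃` -/
noncomputable def Ps (x : ℝ) : ℝ := ∫ a in (0 : ℝ)..x, ∫ b in (0 : ℝ)..a, H3 b a

lemma inner_cont {f : ℝ → ℝ → ℝ} (hf : Continuous fun p : ℝ × ℝ => f p.1 p.2) :
    Continuous fun a => ∫ b in (0 : ℝ)..a, f b a := by
  have h : Continuous fun p : ℝ × ℝ => f p.2 p.1 := hf.comp continuous_swap
  exact cpi (f := fun a b => f b a) h continuous_const continuous_id

lemma Ps_cont : Continuous Ps :=
  intervalIntegral.continuous_primitive
    (fun a b => (inner_cont H3_cont).intervalIntegrable a b) 0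

lemma Ps_mono {a b : ℝ} (ha : 0 ≤ a) (hab : a ≤ b) : Ps a ≤ Ps b := by
  have hc := inner_cont H3_cont
  have e : Ps b = Ps a + ∫ x in a..b, ∫ y in (0 : ℝ)..x, H3 y x :=
    (intervalIntegral.integral_add_adjacent_intervals (hc.intervalIntegrable _ _)
      (hc.intervalIntegrable _ _)).symm
  have h2 : 0 ≤ ∫ x in a..b, ∫ y in (0 : ℝ)..x, H3 y x := by
    apply intervalIntegral.integral_nonneg hab
    intro x hx
    apply intervalIntegral.integral_nonneg (ha.trans hx.1)
    intro y _
    exact H3_nonneg _ _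
  linarith

lemma Ps_nonneg {a : ℝ} (ha : 0 ≤ a) : 0 ≤ Ps a := by
  have := Ps_mono le_rfl ha
  simpa [Ps] using this

/-- `c₃` as an iterated integral -/
lemma J3_eq {s : ℝ} (hs : 0 ≤ s) : J kK s 3 = 6 * ∫ x in (0 : ℝ)..s, Ps x := by
  rw [J3_int hs]
  have sy : ∀ a b, K (a - b) = K (b - a) := fun a b => by rw [← K_even, neg_sub]
  exact cube F3_cont (fun x y z => by
    unfold F3
    rw [sy y x]
    ring) (fun x y z => by
    unfold F3
    rw [sy z y]
    ring) H3_cont F3_H3 hs

/-- the third trace -/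
noncomputable def P3 (s : ℝ) : ℝ :=
  6 * ∫ x in (0 : ℝ)..s, ∫ a in (0 : ℝ)..x, ∫ b in (0 : ℝ)..a, K b * K (a - b) * K a

lemma J3_tr {s : ℝ} (hs : 0 ≤ s) : J kK s 3 = s ^ 3 - 3 * s * QQ s + 2 * P3 s := by
  have sy : ∀ a b, K (a - b) = K (b - a) := fun a b => by rw [← K_even, neg_sub]
  rw [J3_int hs]
  have hc : Continuous fun p : ℝ × ℝ × ℝ => K (p.1 - p.2.1) * K (p.2.1 - p.2.2) * K (p.1 - p.2.2) := by
    fun_prop
  have h3 : P3 s = ∫ x in (0 : ℝ)..s, ∫ y in (0 : ℝ)..s, ∫ z in (0 : ℝ)..s,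
      K (x - y) * K (y - z) * K (x - z) := by
    rw [cube (F := fun x y z => K (x - y) * K (y - z) * K (x - z))
      (H := fun b a => K b * K (a - b) * K a) hc (fun x y z => by
        rw [sy y x]
        ring) (fun x y z => by
        rw [sy z y]
        ring) (by fun_prop) (fun x y z => by
        rw [show x - z - (x - y) = y - z by ring]) hs]
    rfl
  rw [h3]
  -- innermost integral
  have e1 : ∀ x y, ∫ z in (0 : ℝ)..s, F3 x y z = s - s * K (x - y) ^ 2 -
      (∫ z in (0 : ℝ)..s, K (y - z) ^ 2) - (∫ z in (0 : ℝ)..s, K (x - z) ^ 2) +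
      2 * ∫ z in (0 : ℝ)..s, K (x - y) * K (y - z) * K (x - z) := by
    intro x y
    have i1 : IntervalIntegrable (fun z : ℝ => 1 - K (x - y) ^ 2) volume 0 s :=
      continuous_const.intervalIntegrable _ _
    have i2 : IntervalIntegrable (fun z => K (y - z) ^ 2) volume 0 s :=
      Continuous.intervalIntegrable (by fun_prop) _ _
    have i3 : IntervalIntegrable (fun z => K (x - z) ^ 2) volume 0 s :=
      Continuous.intervalIntegrable (by fun_prop) _ _
    have i4 : IntervalIntegrable (fun z => 2 * (K (x - y) * K (y - z) * K (x - z))) volume 0 s :=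
      Continuous.intervalIntegrable (by fun_prop) _ _
    have e : ∀ z, F3 x y z = ((1 - K (x - y) ^ 2) - K (y - z) ^ 2 - K (x - z) ^ 2) +
        2 * (K (x - y) * K (y - z) * K (x - z)) := by
      intro z; unfold F3; ring
    simp_rw [e]
    rw [intervalIntegral.integral_add ((i1.sub i2).sub i3) i4,
      intervalIntegral.integral_sub (i1.sub i2) i3, intervalIntegral.integral_sub i1 i2,
      intervalIntegral.integral_const, intervalIntegral.integral_const_mul, smul_eq_mul]
    ring
  simp_rw [e1]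
  -- middle integral
  have hK2 : Continuous fun y => ∫ z in (0 : ℝ)..s, K (y - z) ^ 2 :=
    dbl_cont (fun y z => K (y - z) ^ 2) (by fun_prop) 0 s
  have hcx : Continuous fun x => ∫ y in (0 : ℝ)..s, ∫ z in (0 : ℝ)..s,
      K (x - y) * K (y - z) * K (x - z) := by
    have h1 : Continuous (Function.uncurry fun (p : ℝ × ℝ) (z : ℝ) =>
        K (p.1 - p.2) * K (p.2 - z) * K (p.1 - z)) := by
      unfold Function.uncurry
      fun_prop
    have h2 : Continuous fun p : ℝ × ℝ => ∫ z in (0 : ℝ)..s,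
        K (p.1 - p.2) * K (p.2 - z) * K (p.1 - z) :=
      intervalIntegral.continuous_parametric_intervalIntegral_of_continuous' h1 0 s
    exact dbl_cont (fun x y => ∫ z in (0 : ℝ)..s, K (x - y) * K (y - z) * K (x - z)) h2 0 s
  have e2 : ∀ x, ∫ y in (0 : ℝ)..s, (s - s * K (x - y) ^ 2 -
      (∫ z in (0 : ℝ)..s, K (y - z) ^ 2) - (∫ z in (0 : ℝ)..s, K (x - z) ^ 2) +
      2 * ∫ z in (0 : ℝ)..s, K (x - y) * K (y - z) * K (x - z)) =
      s ^ 2 - QQ s - 2 * s * (∫ z in (0 : ℝ)..s, K (x - z) ^ 2) +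
      2 * ∫ y in (0 : ℝ)..s, ∫ z in (0 : ℝ)..s, K (x - y) * K (y - z) * K (x - z) := by
    intro x
    have i0 : IntervalIntegrable (fun _ : ℝ => s) volume 0 s :=
      continuous_const.intervalIntegrable _ _
    have i1 : IntervalIntegrable (fun y : ℝ => s * K (x - y) ^ 2) volume 0 s :=
      Continuous.intervalIntegrable (by fun_prop) _ _
    have i2 : IntervalIntegrable (fun y => ∫ z in (0 : ℝ)..s, K (y - z) ^ 2) volume 0 s :=
      hK2.intervalIntegrable _ _
    have i3 : IntervalIntegrable (fun _ : ℝ => ∫ z in (0 : ℝ)..s, K (x - z) ^ 2) volume 0 s :=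
      continuous_const.intervalIntegrable _ _
    have h4 : Continuous fun y => 2 * ∫ z in (0 : ℝ)..s, K (x - y) * K (y - z) * K (x - z) :=
      continuous_const.mul (dbl_cont (fun y z => K (x - y) * K (y - z) * K (x - z))
        (by fun_prop) 0 s)
    have i4 := h4.intervalIntegrable (μ := volume) 0 s
    rw [intervalIntegral.integral_add (((i0.sub i1).sub i2).sub i3) i4,
      intervalIntegral.integral_sub ((i0.sub i1).sub i2) i3,
      intervalIntegral.integral_sub (i0.sub i1) i2, intervalIntegral.integral_sub i0 i1,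
      intervalIntegral.integral_const, intervalIntegral.integral_const,
      intervalIntegral.integral_const_mul, intervalIntegral.integral_const_mul, smul_eq_mul,
      smul_eq_mul]
    have : (∫ y in (0 : ℝ)..s, ∫ z in (0 : ℝ)..s, K (y - z) ^ 2) = QQ s := rfl
    rw [this]
    ring
  simp_rw [e2]
  have i0 : IntervalIntegrable (fun _ : ℝ => s ^ 2 - QQ s) volume 0 s :=
    continuous_const.intervalIntegrable _ _
  have i1 : IntervalIntegrable (fun x => 2 * s * ∫ z in (0 : ℝ)..s, K (x - z) ^ 2) volume 0 s :=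
    (continuous_const.mul hK2).intervalIntegrable _ _
  have i2 : IntervalIntegrable (fun x => 2 * ∫ y in (0 : ℝ)..s, ∫ z in (0 : ℝ)..s,
      K (x - y) * K (y - z) * K (x - z)) volume 0 s :=
    (continuous_const.mul hcx).intervalIntegrable _ _
  rw [intervalIntegral.integral_add (i0.sub i1) i2, intervalIntegral.integral_sub i0 i1,
    intervalIntegral.integral_const, intervalIntegral.integral_const_mul,
    intervalIntegral.integral_const_mul, smul_eq_mul]
  have : (∫ y in (0 : ℝ)..s, ∫ z in (0 : ℝ)..s, K (y - z) ^ 2) = QQ s := rfl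
  rw [this]
  ring

/-- three terms of the alternating series are a lower bound -/
theorem bonf3 {s : ℝ} (hs : 0 ≤ s) (h4 : s ≤ 4) :
    1 - s + J kK s 2 / 2 - J kK s 3 / 6 ≤ EG s := by
  have hk := good_kK
  have hS := summ_alt (s := s) hk
  have e0 : aa kK s 0 = 1 := by unfold aa; rw [J_zero]; simp
  have e1 : aa kK s 1 = s := by unfold aa; rw [J_one, tau_kK hs]; simp
  have e2 : aa kK s 2 = J kK s 2 / 2 := by unfold aa; norm_num [Nat.factorial]
  have e3 : aa kK s 3 = J kK s 3 / 6 := by unfold aa; norm_num [Nat.factorial]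
  have hmono : ∀ m : ℕ, 4 ≤ m → aa kK s (m + 1) ≤ aa kK s m := by
    intro m hm
    refine (aa_succ_le hk m).trans ?_
    have h5 : tau kK s / (m + 1) ≤ 1 := by
      rw [tau_kK hs, div_le_one (by positivity)]
      have : (4 : ℝ) ≤ m := by exact_mod_cast hm
      linarith
    have := aa_nonneg (s := s) hk m
    nlinarith
  have key := (alt_tail (a := fun n => aa kK s (n + 4)) (fun n => aa_nonneg hk _)
      ((summable_nat_add_iff 4).2 (summ_aa hk)) (fun n => by
        have := hmono (n + 4) (by omega)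
        convert this using 2)).1
  have h2 := hS.sum_add_tsum_nat_add 4
  have h5 : ∑' n : ℕ, (-1 : ℝ) ^ (n + 4) * aa kK s (n + 4) =
      ∑' n : ℕ, (-1 : ℝ) ^ n * aa kK s (n + 4) := by
    congr 1
    ext n
    rw [pow_add]
    norm_num
  rw [h5] at h2
  unfold EG
  rw [fred_eq, ← h2]
  simp only [Finset.sum_range_succ, Finset.sum_range_zero, pow_zero, pow_one, e0, e1, e2, e3]
  norm_num
  linarith

/-- two terms are an upper bound -/
theorem bonf2 {s : ℝ} (hs : 0 ≤ s) (h3 : s ≤ 3) : EG s ≤ 1 - s + J kK s 2 / 2 := by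
  have h := (bonferroni (s := s) good_kK (by rw [tau_kK hs]; exact h3)).2
  rw [tau_kK hs] at h
  exact h

lemma EG_ge_lin {s : ℝ} (hs : 0 ≤ s) (h3 : s ≤ 3) : 1 - s ≤ EG s := by
  have h := (bonferroni (s := s) good_kK (by rw [tau_kK hs]; exact h3)).1
  rw [tau_kK hs] at h
  exact h

end Pool.Agent.KS6_15.GU
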