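import Mathlib

/-! Symmetric integrals over squares and cubes as ordered integrals. -/

open MeasureTheory Set Filter Topology intervalIntegral

namespace Pool.Agent.KS6_15.GU

lemma tri_swap {f : ℝ → ℝ → ℝ} (hf : Continuous fun p : ℝ × ℝ => f p.1 p.2) {t : ℝ} (ht : 0 ≤ t) :
    ∫ x in (0 : ℝ)..t, ∫ y in x..t, f x y = ∫ y in (0 : ℝ)..t, ∫ x in (0 : ℝ)..y, f x y := by
  have h1 : ∀ x ∈ Ioc (0 : ℝ) t, ∫ y in x..t, f x y =
      ∫ y in Ioc (0 : ℝ) t, {p : ℝ × ℝ | p.1 < p.2}.indicator (fun p => f p.1 p.2) (x, y) := by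
    intro x hx
    rw [intervalIntegral.integral_of_le hx.2]
    have e : ∀ y, {p : ℝ × ℝ | p.1 < p.2}.indicator (fun p => f p.1 p.2) (x, y) =
        (Ioi x).indicator (f x) y := by
      intro y
      by_cases h : x < y
      · rw [indicator_of_mem (by exact h), indicator_of_mem (by exact h)]
      · rw [indicator_of_notMem (by exact h), indicator_of_notMem (by exact h)]
    simp_rw [e]
    rw [setIntegral_indicator measurableSet_Ioi]
    congr 2
    ext y
    simp only [mem_Ioc, mem_inter_iff, mem_Ioi]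
    constructor
    · rintro ⟨a, b⟩; exact ⟨⟨hx.1.trans a, b⟩, a⟩
    · rintro ⟨⟨a, b⟩, c⟩; exact ⟨c, b⟩
  have h2 : ∀ y ∈ Ioc (0 : ℝ) t, ∫ x in (0 : ℝ)..y, f x y =
      ∫ x in Ioc (0 : ℝ) t, {p : ℝ × ℝ | p.1 < p.2}.indicator (fun p => f p.1 p.2) (x, y) := by
    intro y hy
    rw [intervalIntegral.integral_of_le hy.1.le, integral_Ioc_eq_integral_Ioo]
    have e : ∀ x, {p : ℝ × ℝ | p.1 < p.2}.indicator (fun p => f p.1 p.2) (x, y) =
        (Iio y).indicator (fun x => f x y) x := by
      intro x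
      by_cases h : x < y
      · rw [indicator_of_mem (by exact h), indicator_of_mem (by exact h)]
      · rw [indicator_of_notMem (by exact h), indicator_of_notMem (by exact h)]
    simp_rw [e]
    rw [setIntegral_indicator measurableSet_Iio]
    congr 2
    ext x
    simp only [mem_Ioc, mem_inter_iff, mem_Iio, mem_Ioo]
    constructor
    · rintro ⟨a, b⟩; exact ⟨⟨a, b.le.trans hy.2⟩, b⟩
    · rintro ⟨⟨a, b⟩, c⟩; exact ⟨a, c⟩
  rw [intervalIntegral.integral_of_le ht, intervalIntegral.integral_of_le ht,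
    setIntegral_congr_fun measurableSet_Ioc h1, setIntegral_congr_fun measurableSet_Ioc h2]
  have hint : Integrable (Function.uncurry fun x y =>
      {p : ℝ × ℝ | p.1 < p.2}.indicator (fun p => f p.1 p.2) (x, y))
      ((volume.restrict (Ioc (0 : ℝ) t)).prod (volume.restrict (Ioc (0 : ℝ) t))) := by
    have e : (Function.uncurry fun x y =>
      {p : ℝ × ℝ | p.1 < p.2}.indicator (fun p => f p.1 p.2) (x, y)) =
      {p : ℝ × ℝ | p.1 < p.2}.indicator (fun p => f p.1 p.2) := by
      ext ⟨x, y⟩; rfl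
    rw [e]
    apply Integrable.indicator _ (measurableSet_lt measurable_fst measurable_snd)
    rw [Measure.prod_restrict]
    have h : IntegrableOn (fun p : ℝ × ℝ => f p.1 p.2) (Icc (0 : ℝ) t ×ˢ Icc (0 : ℝ) t)
        (volume.prod volume) :=
      hf.continuousOn.integrableOn_compact (isCompact_Icc.prod isCompact_Icc)
    exact h.mono_set (prod_mono Ioc_subset_Icc_self Ioc_subset_Icc_self)
  exact integral_integral_swap hint

/-- continuity of an integral with parameters -/
lemma cpi {f : ℝ → ℝ → ℝ} (hf : Continuous fun p : ℝ × ℝ => f p.1 p.2) {a b : ℝ → ℝ}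
    (ha : Continuous a) (hb : Continuous b) : Continuous fun x => ∫ y in (a x)..(b x), f x y := by
  have h0 : ∀ x, ∫ y in (a x)..(b x), f x y = (∫ y in (0 : ℝ)..(b x), f x y) -
      ∫ y in (0 : ℝ)..(a x), f x y := by
    intro x
    have hc : Continuous (f x) := by
      have : Continuous fun y : ℝ => (x, y) := by fun_prop
      exact hf.comp this
    rw [integral_interval_sub_left (hc.intervalIntegrable _ _) (hc.intervalIntegrable _ _)]
  simp_rw [h0]
  exact (intervalIntegral.continuous_parametric_intervalIntegral_of_continuous hf hb).sub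
    (intervalIntegral.continuous_parametric_intervalIntegral_of_continuous hf ha)

lemma sym2 {f : ℝ → ℝ → ℝ} (hf : Continuous fun p : ℝ × ℝ => f p.1 p.2)
    (hs : ∀ x y, f x y = f y x) {t : ℝ} (ht : 0 ≤ t) :
    ∫ x in (0 : ℝ)..t, ∫ y in (0 : ℝ)..t, f x y = 2 * ∫ x in (0 : ℝ)..t, ∫ y in (0 : ℝ)..x, f x y := by
  have hc : ∀ x, Continuous (f x) := by
    intro x
    have : Continuous fun y : ℝ => (x, y) := by fun_prop
    exact hf.comp this
  have h0 : ∀ x, ∫ y in (0 : ℝ)..t, f x y = (∫ y in (0 : ℝ)..x, f x y) + ∫ y in x..t, f x y :=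
    fun x => (integral_add_adjacent_intervals ((hc x).intervalIntegrable _ _)
      ((hc x).intervalIntegrable _ _)).symm
  simp_rw [h0]
  have c1 : Continuous fun x => ∫ y in (0 : ℝ)..x, f x y := cpi hf continuous_const continuous_id
  have c2 : Continuous fun x => ∫ y in x..t, f x y := cpi hf continuous_id continuous_const
  rw [intervalIntegral.integral_add (c1.intervalIntegrable _ _) (c2.intervalIntegrable _ _),
    tri_swap hf ht]
  have h2 : ∫ y in (0 : ℝ)..t, ∫ x in (0 : ℝ)..y, f x y =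
      ∫ x in (0 : ℝ)..t, ∫ y in (0 : ℝ)..x, f x y := by
    apply intervalIntegral.integral_congr
    intro x _
    apply intervalIntegral.integral_congr
    intro y _
    exact hs y x
  rw [h2]
  ring

/-- a symmetric triple integral is six times the ordered integral -/
lemma sym3 {F : ℝ → ℝ → ℝ → ℝ} (hF : Continuous fun p : ℝ × ℝ × ℝ => F p.1 p.2.1 p.2.2)
    (h12 : ∀ x y z, F x y z = F y x z) (h23 : ∀ x y z, F x y z = F x z y) {t : ℝ} (ht : 0 ≤ t) :
    ∫ x in (0 : ℝ)..t, ∫ y in (0 : ℝ)..t, ∫ z in (0 : ℝ)..t, F x y z =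
      6 * ∫ x in (0 : ℝ)..t, ∫ y in (0 : ℝ)..x, ∫ z in (0 : ℝ)..y, F x y z := by
  -- continuity of partial integrals
  have hA : ∀ {a b : ℝ × ℝ → ℝ}, Continuous a → Continuous b →
      Continuous fun p : ℝ × ℝ => ∫ z in (a p)..(b p), F p.1 p.2 z := by
    intro a b ha hb
    have hf : Continuous (Function.uncurry fun (p : ℝ × ℝ) (z : ℝ) => F p.1 p.2 z) := by
      have h1 : Continuous fun q : (ℝ × ℝ) × ℝ => ((q.1.1, q.1.2, q.2) : ℝ × ℝ × ℝ) := by fun_prop
      exact hF.comp h1
    have h0 : ∀ p : ℝ × ℝ, ∫ z in (a p)..(b p), F p.1 p.2 z = (∫ z in (0 : ℝ)..(b p), F p.1 p.2 z) -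
        ∫ z in (0 : ℝ)..(a p), F p.1 p.2 z := by
      intro p
      have hc : Continuous (F p.1 p.2) := by
        have : Continuous fun y : ℝ => ((p.1, p.2, y) : ℝ × ℝ × ℝ) := by fun_prop
        exact hF.comp this
      rw [integral_interval_sub_left (hc.intervalIntegrable _ _) (hc.intervalIntegrable _ _)]
    simp_rw [h0]
    exact (intervalIntegral.continuous_parametric_intervalIntegral_of_continuous hf hb).sub
      (intervalIntegral.continuous_parametric_intervalIntegral_of_continuous hf ha)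
  have s1 := sym2 (f := fun x y => ∫ z in (0 : ℝ)..t, F x y z)
    (hA continuous_const continuous_const) (fun x y => by simp_rw [h12 x y]) ht
  rw [s1]
  have cz : ∀ x y, Continuous (F x y) := by
    intro x y
    have : Continuous fun z : ℝ => ((x, y, z) : ℝ × ℝ × ℝ) := by fun_prop
    exact hF.comp this
  have cx : ∀ x, Continuous fun p : ℝ × ℝ => F x p.1 p.2 := by
    intro x
    have : Continuous fun p : ℝ × ℝ => ((x, p.1, p.2) : ℝ × ℝ × ℝ) := by fun_prop
    exact hF.comp this
  -- inner decomposition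
  have s2 : ∀ x, 0 ≤ x → ∫ y in (0 : ℝ)..x, ∫ z in (0 : ℝ)..t, F x y z =
      2 * (∫ y in (0 : ℝ)..x, ∫ z in (0 : ℝ)..y, F x y z) +
        ∫ z in x..t, ∫ y in (0 : ℝ)..x, F x y z := by
    intro x hx
    have e1 : ∀ y, ∫ z in (0 : ℝ)..t, F x y z = (∫ z in (0 : ℝ)..x, F x y z) +
        ∫ z in x..t, F x y z := fun y =>
      (integral_add_adjacent_intervals ((cz x y).intervalIntegrable _ _)
        ((cz x y).intervalIntegrable _ _)).symm
    simp_rw [e1]
    rw [intervalIntegral.integral_add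
      ((cpi (cx x) continuous_const continuous_const).intervalIntegrable _ _)
      ((cpi (cx x) continuous_const continuous_const).intervalIntegrable _ _),
      sym2 (cx x) (fun y z => h23 x y z) hx]
    congr 1
    apply intervalIntegral_intervalIntegral_swap
    have h : IntegrableOn (fun p : ℝ × ℝ => F x p.1 p.2) (uIcc (0 : ℝ) x ×ˢ uIcc x t)
        (volume.prod volume) :=
      (cx x).continuousOn.integrableOn_compact (isCompact_uIcc.prod isCompact_uIcc)
    exact h.mono_set (prod_mono uIoc_subset_uIcc uIoc_subset_uIcc)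
  have s3 : ∫ x in (0 : ℝ)..t, ∫ y in (0 : ℝ)..x, ∫ z in (0 : ℝ)..t, F x y z =
      ∫ x in (0 : ℝ)..t, (2 * (∫ y in (0 : ℝ)..x, ∫ z in (0 : ℝ)..y, F x y z) +
        ∫ z in x..t, ∫ y in (0 : ℝ)..x, F x y z) := by
    apply intervalIntegral.integral_congr
    intro x hx
    rw [uIcc_of_le ht] at hx
    exact s2 x hx.1
  -- continuity of the two parts
  have c1 : Continuous fun x => ∫ y in (0 : ℝ)..x, ∫ z in (0 : ℝ)..y, F x y z :=
    cpi (f := fun x y => ∫ z in (0 : ℝ)..y, F x y z) (hA continuous_const continuous_snd)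
      continuous_const continuous_id
  have hB : Continuous fun p : ℝ × ℝ => ∫ y in (0 : ℝ)..p.1, F p.1 y p.2 := by
    have hf : Continuous (Function.uncurry fun (p : ℝ × ℝ) (y : ℝ) => F p.1 y p.2) := by
      have h1 : Continuous fun q : (ℝ × ℝ) × ℝ => ((q.1.1, q.2, q.1.2) : ℝ × ℝ × ℝ) := by fun_prop
      exact hF.comp h1
    exact intervalIntegral.continuous_parametric_intervalIntegral_of_continuous hf continuous_fst
  have c2 : Continuous fun x => ∫ z in x..t, ∫ y in (0 : ℝ)..x, F x y z :=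
    cpi (f := fun x z => ∫ y in (0 : ℝ)..x, F x y z) hB continuous_id continuous_const
  have c1' : Continuous fun x => 2 * ∫ y in (0 : ℝ)..x, ∫ z in (0 : ℝ)..y, F x y z :=
    continuous_const.mul c1
  rw [s3, intervalIntegral.integral_add (c1'.intervalIntegrable _ _)
    (c2.intervalIntegrable _ _), intervalIntegral.integral_const_mul,
    tri_swap (f := fun x z => ∫ y in (0 : ℝ)..x, F x y z) hB ht]
  have s4 : ∫ z in (0 : ℝ)..t, ∫ x in (0 : ℝ)..z, ∫ y in (0 : ℝ)..x, F x y z =
      ∫ x in (0 : ℝ)..t, ∫ y in (0 : ℝ)..x, ∫ z in (0 : ℝ)..y, F x y z := by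
    apply intervalIntegral.integral_congr
    intro x _
    apply intervalIntegral.integral_congr
    intro y _
    apply intervalIntegral.integral_congr
    intro z _
    simp only
    rw [h23 y z x, h12 y x z]
  rw [s4]
  ring

/-- translation invariance: the ordered integral in terms of the differences -/
lemma ord_shift {H : ℝ → ℝ → ℝ} (hH : Continuous fun p : ℝ × ℝ => H p.1 p.2) {x : ℝ}
    (hx : 0 ≤ x) : ∫ y in (0 : ℝ)..x, ∫ z in (0 : ℝ)..y, H (x - y) (x - z) =
      ∫ a in (0 : ℝ)..x, ∫ b in (0 : ℝ)..a, H b a := by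
  have h1 : ∀ y, ∫ z in (0 : ℝ)..y, H (x - y) (x - z) = ∫ a in (x - y)..x, H (x - y) a := by
    intro y
    rw [intervalIntegral.integral_comp_sub_left (fun a => H (x - y) a) x, sub_zero]
  simp_rw [h1]
  rw [intervalIntegral.integral_comp_sub_left (fun b => ∫ a in b..x, H b a) x, sub_self, sub_zero,
    tri_swap hH hx]

/-- a translation invariant symmetric integral over a cube -/
lemma cube {F : ℝ → ℝ → ℝ → ℝ} (hF : Continuous fun p : ℝ × ℝ × ℝ => F p.1 p.2.1 p.2.2)
    (h12 : ∀ x y z, F x y z = F y x z) (h23 : ∀ x y z, F x y z = F x z y)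
    {H : ℝ → ℝ → ℝ} (hH : Continuous fun p : ℝ × ℝ => H p.1 p.2)
    (hFH : ∀ x y z, F x y z = H (x - y) (x - z)) {t : ℝ} (ht : 0 ≤ t) :
    ∫ x in (0 : ℝ)..t, ∫ y in (0 : ℝ)..t, ∫ z in (0 : ℝ)..t, F x y z =
      6 * ∫ x in (0 : ℝ)..t, ∫ a in (0 : ℝ)..x, ∫ b in (0 : ℝ)..a, H b a := by
  rw [sym3 hF h12 h23 ht]
  congr 1
  apply intervalIntegral.integral_congr
  intro x hx
  rw [uIcc_of_le ht] at hx
  simp only
  simp_rw [hFH]
  exact ord_shift hH hx.1

/-- convexity of an iterated integral -/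
lemma chord {g : ℝ → ℝ} (hg : Continuous g) (hmono : Monotone g) {p q s : ℝ} (hp : p ≤ s)
    (hq : s ≤ q) (hpq : p < q) : (∫ x in (0 : ℝ)..s, g x) ≤
      ((q - s) * (∫ x in (0 : ℝ)..p, g x) + (s - p) * ∫ x in (0 : ℝ)..q, g x) / (q - p) := by
  have hi : ∀ a b, IntervalIntegrable g volume a b := fun a b => hg.intervalIntegrable a b
  have h1 : ∫ x in p..s, g x ≤ (s - p) * g s := by
    have := intervalIntegral.integral_mono_on hp (hi _ _)
      (continuous_const.intervalIntegrable _ _) (fun x hx => hmono hx.2)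
    rwa [intervalIntegral.integral_const, smul_eq_mul] at this
  have h2 : (q - s) * g s ≤ ∫ x in s..q, g x := by
    have := intervalIntegral.integral_mono_on hq (continuous_const.intervalIntegrable _ _)
      (hi _ _) (fun x hx => hmono hx.1)
    rwa [intervalIntegral.integral_const, smul_eq_mul] at this
  have e1 : ∫ x in (0 : ℝ)..s, g x = (∫ x in (0 : ℝ)..p, g x) + ∫ x in p..s, g x :=
    (integral_add_adjacent_intervals (hi _ _) (hi _ _)).symm
  have e2 : ∫ x in (0 : ℝ)..q, g x = (∫ x in (0 : ℝ)..s, g x) + ∫ x in s..q, g x :=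
    (integral_add_adjacent_intervals (hi _ _) (hi _ _)).symm
  rw [le_div_iff₀ (by linarith), e2, e1]
  have h3 : (q - s) * ∫ x in p..s, g x ≤ (q - s) * ((s - p) * g s) :=
    mul_le_mul_of_nonneg_left h1 (by linarith)
  have h4 : (s - p) * ((q - s) * g s) ≤ (s - p) * ∫ x in s..q, g x :=
    mul_le_mul_of_nonneg_left h2 (by linarith)
  nlinarith

end Pool.Agent.KS6_15.GU
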