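import Pool.Agent.KS6_15.GU.Num3

/-! Numerical values of the traces of the sine kernel. -/

open Matrix MeasureTheory Set Filter Topology

namespace Pool.Agent.KS6_15.GU

open Pool.Agent.E8helper28.RM

/-! ### the second trace -/

/-- upper bound for the square of the kernel -/
lemma Ksq_le (m : ℕ) (u : ℝ) : K u ^ 2 ≤ ∑ j ∈ Finset.range (2 * m + 1),
    (-1 : ℝ) ^ j * (4 * Real.pi ^ 2) ^ j * 2 * u ^ (2 * j) / ((2 * j + 2).factorial : ℝ) := by
  have hpi := Real.pi_pos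
  by_cases hu : u = 0
  · subst hu
    rw [K_zero, Finset.sum_range_succ']
    simp
  · set z := 2 * Real.pi * |u| with hz
    have hu' : 0 < |u| := abs_pos.2 hu
    have hz0 : 0 < z := by positivity
    have h1 : K u ^ 2 = 2 * (1 - Real.cos z) / z ^ 2 := by
      have : K u = K |u| := by
        rcases abs_cases u with ⟨h, _⟩ | ⟨h, _⟩
        · rw [h]
        · rw [h, K_even]
      rw [this]
      unfold K
      rw [Real.sinc_of_ne_zero (by positivity), div_pow, hz,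
        show 2 * Real.pi * |u| = 2 * (Real.pi * |u|) by ring, Real.cos_two_mul,
        Real.sin_sq]
      field_simp
      ring
    rw [h1, div_le_iff₀ (by positivity)]
    have h3 := (taylor m).2.2.1 z hz0.le
    have h4 : Cn (2 * m + 2) z = 1 - ∑ j ∈ Finset.range (2 * m + 1),
        (-1 : ℝ) ^ j * z ^ (2 * j + 2) / ((2 * j + 2).factorial : ℝ) := by
      unfold Cn
      rw [Finset.sum_range_succ']
      simp only [mul_zero, pow_zero, Nat.factorial_zero, Nat.cast_one, div_one, mul_one]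
      rw [add_comm, sub_eq_add_neg, ← Finset.sum_neg_distrib]
      congr 1
      refine Finset.sum_congr rfl fun j _ => ?_
      rw [show 2 * (j + 1) = 2 * j + 2 by ring, pow_succ (-1 : ℝ)]
      ring
    rw [h4] at h3
    have h5 : (∑ j ∈ Finset.range (2 * m + 1),
        (-1 : ℝ) ^ j * (4 * Real.pi ^ 2) ^ j * 2 * u ^ (2 * j) / ((2 * j + 2).factorial : ℝ)) *
          z ^ 2 = 2 * ∑ j ∈ Finset.range (2 * m + 1),
        (-1 : ℝ) ^ j * z ^ (2 * j + 2) / ((2 * j + 2).factorial : ℝ) := by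
      rw [Finset.sum_mul, Finset.mul_sum]
      refine Finset.sum_congr rfl fun j _ => ?_
      have h2 : (4 * Real.pi ^ 2) ^ j * u ^ (2 * j) = z ^ (2 * j) := by
        rw [hz, pow_mul u, ← mul_pow, pow_mul]
        congr 1
        rw [mul_pow, mul_pow, sq_abs]
        ring
      rw [pow_add z (2 * j) 2]
      linear_combination (-1 : ℝ) ^ j * 2 * z ^ 2 / ((2 * j + 2).factorial : ℝ) * h2
    rw [h5]
    linarith

lemma QQ_le (m : ℕ) {t : ℝ} (ht : 0 ≤ t) : QQ t ≤ QL (2 * m + 1) (Real.pi ^ 2) t := by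
  unfold QQ
  rw [← QQ_poly]
  have hc1 : Continuous fun p : ℝ × ℝ => ∑ j ∈ Finset.range (2 * m + 1),
    (-1 : ℝ) ^ j * (4 * Real.pi ^ 2) ^ j * 2 * (p.1 - p.2) ^ (2 * j) /
      ((2 * j + 2).factorial : ℝ) := by fun_prop
  have hc2 : Continuous fun p : ℝ × ℝ => K (p.1 - p.2) ^ 2 := by fun_prop
  apply intervalIntegral.integral_mono_on ht ((dbl_cont _ hc2 0 t).intervalIntegrable _ _)
    ((dbl_cont _ hc1 0 t).intervalIntegrable _ _)
  intro x _
  apply intervalIntegral.integral_mono_on ht (Continuous.intervalIntegrable (by fun_prop) _ _)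
    (Continuous.intervalIntegrable (by fun_prop) _ _)
  intro y _
  exact Ksq_le m _

lemma QL_num' (n : ℕ) {p lo hi t : ℝ} (hlo : 0 ≤ lo) (h1 : lo ≤ p) (h2 : p ≤ hi) (ht : 0 ≤ t) :
    QL n p t ≤ ∑ j ∈ Finset.range n, (if j % 2 = 0 then (4 * hi) ^ j else -(4 * lo) ^ j) * 4 *
      t ^ (2 * j + 2) / ((2 * j + 2).factorial * (2 * j + 1) * (2 * j + 2) : ℝ) := by
  unfold QL
  refine Finset.sum_le_sum fun j _ => ?_
  apply div_le_div_of_nonneg_right _ (by positivity)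
  apply mul_le_mul_of_nonneg_right _ (by positivity)
  apply mul_le_mul_of_nonneg_right _ (by norm_num)
  split_ifs with h
  · have : Even j := Nat.even_iff.2 h
    rw [this.neg_one_pow, one_mul]
    exact pow_le_pow_left₀ (by linarith) (by linarith) j
  · have : Odd j := Nat.odd_iff.2 (by omega)
    rw [this.neg_one_pow, neg_one_mul]
    exact neg_le_neg (pow_le_pow_left₀ (by positivity) (by linarith) j)

/-! ### rational sums -/

/-- sums of rational numbers -/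
def sumr : ℕ → (ℕ → ℚ) → ℚ
  | 0, _ => 0
  | n + 1, f => sumr n f + f n

lemma sumr_eq (n : ℕ) (f : ℕ → ℚ) : sumr n f = ∑ j ∈ Finset.range n, f j := by
  induction n with
  | zero => rfl
  | succ n ih => rw [Finset.sum_range_succ, ← ih]; rfl

/-- lower end for `π²` -/
def pl : ℚ := 98696044 / 10000000
/-- upper end for `π²` -/
def ph : ℚ := 98696045 / 10000000

lemma pl_cast : ((pl : ℚ) : ℝ) = plo := by unfold pl plo; norm_num
lemma ph_cast : ((ph : ℚ) : ℝ) = phi := by unfold ph phi; norm_num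

/-- signed powers, upper bound -/
def pwU (n : ℕ) : ℚ := if n % 2 = 0 then ph ^ n else -pl ^ n
/-- signed powers, lower bound -/
def pwL (n : ℕ) : ℚ := if n % 2 = 0 then pl ^ n else -ph ^ n

lemma pwU_ge (n : ℕ) : (-1 : ℝ) ^ n * (Real.pi ^ 2) ^ n ≤ (pwU n : ℝ) := by
  have h0 : (0 : ℝ) ≤ Real.pi ^ 2 := by positivity
  unfold pwU
  split_ifs with h
  · have : Even n := Nat.even_iff.2 h
    rw [this.neg_one_pow, one_mul]
    push_cast
    rw [ph_cast]
    exact pow_le_pow_left₀ h0 le_phi n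
  · have : Odd n := Nat.odd_iff.2 (by omega)
    rw [this.neg_one_pow, neg_one_mul]
    push_cast
    rw [pl_cast]
    exact neg_le_neg (pow_le_pow_left₀ plo_nonneg plo_le n)

lemma pwL_le (n : ℕ) : (pwL n : ℝ) ≤ (-1 : ℝ) ^ n * (Real.pi ^ 2) ^ n := by
  have h0 : (0 : ℝ) ≤ Real.pi ^ 2 := by positivity
  unfold pwL
  split_ifs with h
  · have : Even n := Nat.even_iff.2 h
    rw [this.neg_one_pow, one_mul]
    push_cast
    rw [pl_cast]
    exact pow_le_pow_left₀ plo_nonneg plo_le n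
  · have : Odd n := Nat.odd_iff.2 (by omega)
    rw [this.neg_one_pow, neg_one_mul]
    push_cast
    rw [ph_cast]
    exact neg_le_neg (pow_le_pow_left₀ h0 le_phi n)

/-- weights of the second trace -/
def w2 (t : ℚ) (j : ℕ) : ℚ :=
  4 ^ (j + 1) * t ^ (2 * j + 2) / (((2 * j + 2).factorial * (2 * j + 1) * (2 * j + 2) : ℕ) : ℚ)

lemma w2_nonneg {t : ℚ} (ht : 0 ≤ t) (j : ℕ) : (0 : ℝ) ≤ (w2 t j : ℝ) := by
  have : 0 ≤ w2 t j := by unfold w2; positivity
  exact_mod_cast this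

lemma QL_w2 (n : ℕ) (t : ℚ) : QL n (Real.pi ^ 2) (t : ℝ) =
    ∑ j ∈ Finset.range n, ((-1 : ℝ) ^ j * (Real.pi ^ 2) ^ j) * (w2 t j : ℝ) := by
  unfold QL w2
  apply Finset.sum_congr rfl
  intro j _
  push_cast
  rw [mul_pow, pow_succ 4]
  ring

lemma QQ_up {t v : ℚ} (ht : 0 ≤ t) (h : sumr 19 (fun j => pwU j * w2 t j) ≤ v) :
    QQ (t : ℝ) ≤ (v : ℝ) := by
  have ht' : (0 : ℝ) ≤ (t : ℝ) := by exact_mod_cast ht
  refine (QQ_le 9 ht').trans ?_
  rw [QL_w2]
  have h2 : ((sumr 19 (fun j => pwU j * w2 t j) : ℚ) : ℝ) ≤ (v : ℝ) := by exact_mod_cast h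
  refine le_trans ?_ h2
  rw [sumr_eq]
  push_cast
  apply Finset.sum_le_sum
  intro j _
  exact mul_le_mul_of_nonneg_right (pwU_ge j) (w2_nonneg ht j)

lemma QQ_lo {t v : ℚ} (ht : 0 ≤ t) (h : v ≤ sumr 18 (fun j => pwL j * w2 t j)) :
    (v : ℝ) ≤ QQ (t : ℝ) := by
  have ht' : (0 : ℝ) ≤ (t : ℝ) := by exact_mod_cast ht
  refine le_trans ?_ (QQ_ge 9 ht')
  rw [QL_w2]
  have h2 : (v : ℝ) ≤ ((sumr 18 (fun j => pwL j * w2 t j) : ℚ) : ℝ) := by exact_mod_cast h
  refine h2.trans ?_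
  rw [sumr_eq]
  push_cast
  apply Finset.sum_le_sum
  intro j _
  exact mul_le_mul_of_nonneg_right (pwL_le j) (w2_nonneg ht j)

/-- weights of the third trace -/
def w3 (t : ℚ) (i j k : ℕ) : ℚ :=
  t ^ (2 * (i + j + k) + 3) / (((2 * i + 1) * (2 * j + 1) * (2 * k + 1).factorial *
    (2 * i + 2 * j + 1).factorial * (2 * (i + j + k) + 2) * (2 * (i + j + k) + 3) : ℕ) : ℚ)

lemma w3_nonneg {t : ℚ} (ht : 0 ≤ t) (i j k : ℕ) : (0 : ℝ) ≤ (w3 t i j k : ℝ) := by
  have : 0 ≤ w3 t i j k := by unfold w3; positivity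
  exact_mod_cast this

lemma c3f_w3 (t : ℚ) (i j k : ℕ) : c3f (Real.pi ^ 2) i j k * ((t : ℝ) ^ (2 * (i + j + k) + 3) /
    ((2 * (i + j + k) + 2) * (2 * (i + j + k) + 3))) =
    ((-1 : ℝ) ^ (i + j + k) * (Real.pi ^ 2) ^ (i + j + k)) * (w3 t i j k : ℝ) := by
  unfold c3f cf w3
  push_cast
  rw [Nat.factorial_succ (2 * i), Nat.factorial_succ (2 * j)]
  push_cast
  have h1 : ((2 * i).factorial : ℝ) ≠ 0 := by positivity
  have h2 : ((2 * j).factorial : ℝ) ≠ 0 := by positivity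
  have h3 : ((2 * k + 1).factorial : ℝ) ≠ 0 := by positivity
  have h4 : ((2 * i + 2 * j + 1).factorial : ℝ) ≠ 0 := by positivity
  have h5 : (2 * ((i : ℝ) + j + k) + 2) ≠ 0 := by positivity
  have h6 : (2 * ((i : ℝ) + j + k) + 3) ≠ 0 := by positivity
  rw [pow_add (-1 : ℝ) (i + j), pow_add (-1 : ℝ) i, pow_add (Real.pi ^ 2) (i + j),
    pow_add (Real.pi ^ 2) i]
  field_simp

/-- the rational triple sum -/
def T3 (t : ℚ) : ℚ :=
  6 * sumr 11 fun i => sumr 11 fun j => sumr 11 fun k => pwU (i + j + k) * w3 t i j k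

lemma P3P_le {t : ℚ} (ht : 0 ≤ t) : P3P (Real.pi ^ 2) (t : ℝ) ≤ (T3 t : ℝ) := by
  unfold P3P T3
  push_cast
  apply mul_le_mul_of_nonneg_left _ (by norm_num)
  rw [sumr_eq]
  push_cast
  apply Finset.sum_le_sum
  intro i _
  rw [sumr_eq]
  push_cast
  apply Finset.sum_le_sum
  intro j _
  rw [sumr_eq]
  push_cast
  apply Finset.sum_le_sum
  intro k _
  rw [c3f_w3]
  exact mul_le_mul_of_nonneg_right (pwU_ge _) (w3_nonneg ht i j k)

/-- upper bound for the third coefficient -/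
theorem c3_up {t v : ℚ} (ht : 0 ≤ t) (ht1 : t ≤ 37 / 20)
    (h : t ^ 3 - 3 * t * sumr 18 (fun j => pwL j * w2 t j) + 2 * (T3 t + 12 / 1000000 * t ^ 3) ≤ v) :
    J kK (t : ℝ) 3 ≤ (v : ℝ) := by
  have ht' : (0 : ℝ) ≤ (t : ℝ) := by exact_mod_cast ht
  have ht1' : (t : ℝ) ≤ 37 / 20 := by
    have h0 : ((t : ℚ) : ℝ) ≤ ((37 / 20 : ℚ) : ℝ) := by exact_mod_cast ht1
    push_cast at h0
    exact h0
  rw [J3_tr ht']
  have h1 := P3_le ht' ht1'
  have h2 := P3P_le ht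
  have h3 := QQ_lo (t := t) (v := sumr 18 (fun j => pwL j * w2 t j)) ht le_rfl
  have h4 : (((t ^ 3 - 3 * t * sumr 18 (fun j => pwL j * w2 t j) +
      2 * (T3 t + 12 / 1000000 * t ^ 3) : ℚ)) : ℝ) ≤ (v : ℝ) := by exact_mod_cast h
  refine le_trans ?_ h4
  push_cast
  push_cast at h3
  have h5 : 3 * (t : ℝ) * ((sumr 18 (fun j => pwL j * w2 t j) : ℚ) : ℝ) ≤ 3 * (t : ℝ) * QQ t := by
    gcongr
  linarith

end Pool.Agent.KS6_15.GU
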